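import Mathlib

/-!
# The Stack Model: definitions
-/

namespace Q292.Stack

open MeasureTheory ProbabilityTheory
open scoped ENNReal

/-- `ℤ^{d-1} × ℤ` with `D = d - 1`. -/
abbrev V (D : ℕ) := (Fin D → ℤ) × ℤ

/-- The nearest-neighbour lattice. -/
def lattice (D : ℕ) : SimpleGraph (V D) where
  Adj x y := ∑ i, |x.1 i - y.1 i| + |x.2 - y.2| = 1
  symm := ⟨fun x y h => by simpa only [abs_sub_comm] using h⟩
  loopless := ⟨fun x h => by simp at h⟩

/-- Edges of the lattice. -/
abbrev Edge (D : ℕ) := (lattice D).edgeSet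

open Classical in
/-- Inhomogeneous bond percolation: edges with both endpoints in `R` are open with probability
`q`, all other edges with probability `p`, independently. -/
noncomputable def perc (D : ℕ) (R : Set (V D)) (p q : unitInterval) : Measure (Edge D → Bool) :=
  Measure.infinitePi fun e : Edge D => bernoulliMeasure true false
    (if ∀ z ∈ (e : Sym2 (V D)), z ∈ R then q else p)

/-- The open subgraph. -/
def openG {D : ℕ} (ω : Edge D → Bool) : SimpleGraph (V D) where
  Adj x y := ∃ h : (lattice D).Adj x y, ω ⟨s(x, y), h⟩ = true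
  symm := ⟨fun x y h => by
    obtain ⟨h1, h2⟩ := h
    refine ⟨h1.symm, ?_⟩
    rw [← h2]
    congr 1
    exact Subtype.ext Sym2.eq_swap⟩
  loopless := ⟨fun x h => by
    obtain ⟨h1, -⟩ := h
    exact h1.ne rfl⟩

/-- The open cluster of the origin. -/
def cluster {D : ℕ} (ω : Edge D → Bool) : Set (V D) := {v | (openG ω).Reachable 0 v}

/-- The percolation probability. -/
noncomputable def theta (D : ℕ) (R : Set (V D)) (p q : unitInterval) : ℝ≥0∞ :=
  perc D R p q {ω | (cluster ω).Infinite}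

/-- The critical probability of homogeneous bond percolation (`R = ∅`). -/
noncomputable def pc (D : ℕ) : ℝ :=
  sSup {t : ℝ | ∃ p : unitInterval, (p : ℝ) = t ∧ theta D ∅ p p = 0}

/-- `X_0 + 2 (X_1 + ⋯ + X_{n-1}) + X_n` for `n ≥ 1`, and `0` for `n = 0`. -/
def Zp (X : ℕ → ℕ) : ℕ → ℤ
  | 0 => 0
  | n + 1 => X 0 + 2 * ∑ i ∈ Finset.range n, (X (i + 1) : ℤ) + X (n + 1)

/-- The heights of the centres. -/
def Z (X : ℤ → ℕ) (n : ℤ) : ℤ :=
  if 0 ≤ n then Zp (fun i => X i) n.toNat else -Zp (fun i => X (-i)) (-n).toNat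

/-- The box `B(a, r)`. -/
def box (D : ℕ) (a : ℤ) (r : ℕ) : Set (V D) := {v | ∑ i, |v.1 i| ≤ r ∧ |v.2 - a| ≤ r}

/-- The region `R(Λ)`. -/
def region (D : ℕ) (X : ℤ → ℕ) : Set (V D) := ⋃ n : ℤ, box D (Z X n) (X n)

end Q292.Stack
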