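import Mathlib
import Pool.Agent.Q292.Stack.Defs
import Pool.Agent.Q292.Ess.Geom

/-!
# Path counting
-/

namespace Q292.Stack

open MeasureTheory ProbabilityTheory SimpleGraph
open scoped ENNReal

variable {D : ℕ}

/-- unit vectors -/
def dir (D : ℕ) : Option (Fin D) × Bool → V D
  | (none, b) => (0, if b then 1 else -1)
  | (some i, b) => (Pi.single i (if b then 1 else -1), 0)

theorem adj_dir {x y : V D} (h : (lattice D).Adj x y) : ∃ δ, y = x + dir D δ := by
  have h1 : ∑ i, |x.1 i - y.1 i| + |x.2 - y.2| = 1 := h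
  have h2 : 0 ≤ ∑ i, |x.1 i - y.1 i| := Finset.sum_nonneg fun _ _ => abs_nonneg _
  have h3 := abs_nonneg (x.2 - y.2)
  by_cases hz : |x.2 - y.2| = 0
  · have h4 : ∑ i, |x.1 i - y.1 i| = 1 := by omega
    obtain ⟨i, hi1, hi2⟩ := Q292.Ess.adj_struct (x := x.1) (y := y.1) h4
    rw [abs_eq_zero] at hz
    have hxy : x.2 = y.2 := by omega
    have key : ∀ t : ℤ, y.1 i = x.1 i + t → y.1 = x.1 + Pi.single i t := by
      intro t ht
      funext j
      by_cases hj : j = i
      · subst hj
        rw [ht]
        simp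
      · have := congrFun hi2 j
        rw [Function.update_of_ne hj] at this
        rw [this]
        simp [hj]
    rcases abs_cases (x.1 i - y.1 i) with ⟨h5, _⟩ | ⟨h5, _⟩
    · refine ⟨(some i, false), Prod.ext ?_ ?_⟩
      · exact key (-1) (by omega)
      · simp [dir, hxy]
    · refine ⟨(some i, true), Prod.ext ?_ ?_⟩
      · exact key 1 (by omega)
      · simp [dir, hxy]
  · have h4 : ∑ i, |x.1 i - y.1 i| = 0 := by omega
    have hxy : x.1 = y.1 := by
      funext i
      have := (Finset.sum_eq_zero_iff_of_nonneg (fun _ _ => abs_nonneg _)).1 h4 i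
        (Finset.mem_univ _)
      rw [abs_eq_zero] at this
      omega
    rcases abs_cases (x.2 - y.2) with ⟨h5, _⟩ | ⟨h5, _⟩
    · refine ⟨(none, false), Prod.ext ?_ ?_⟩
      · simp [dir, hxy]
      · simp only [dir, Prod.snd_add]
        simp
        omega
    · refine ⟨(none, true), Prod.ext ?_ ?_⟩
      · simp [dir, hxy]
      · simp only [dir, Prod.snd_add]
        simp
        omega

/-- neighbours -/
def nb (x : V D) : Finset (V D) := Finset.univ.image fun δ => x + dir D δ

theorem mem_nb {x y : V D} (h : (lattice D).Adj x y) : y ∈ nb x := by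
  obtain ⟨δ, hδ⟩ := adj_dir h
  rw [nb, Finset.mem_image]
  exact ⟨δ, Finset.mem_univ _, hδ.symm⟩

theorem card_nb (x : V D) : (nb x).card ≤ 2 * (D + 1) := by
  refine Finset.card_image_le.trans ?_
  rw [Finset.card_univ, Fintype.card_prod, Fintype.card_option, Fintype.card_bool,
    Fintype.card_fin]
  omega

theorem nb_height {x y : V D} (h : y ∈ nb x) : |y.2 - x.2| ≤ 1 := by
  rw [nb, Finset.mem_image] at h
  obtain ⟨⟨o, b⟩, -, rfl⟩ := h
  cases o <;> cases b <;> simp [dir]

theorem adj_height {x y : V D} (h : (lattice D).Adj x y) : |y.2 - x.2| ≤ 1 := nb_height (mem_nb h)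

/-- edge lists of walks of length `n` from `x` (a superset) -/
def plists : ℕ → V D → Finset (List (Sym2 (V D)))
  | 0, _ => {[]}
  | n + 1, x => (nb x).biUnion fun y => (plists n y).image (List.cons s(x, y))

theorem card_plists (n : ℕ) (x : V D) : (plists n x).card ≤ (2 * (D + 1)) ^ n := by
  induction n generalizing x with
  | zero => simp [plists]
  | succ n ih =>
    rw [plists, pow_succ, mul_comm]
    refine Finset.card_biUnion_le.trans ?_
    calc ∑ y ∈ nb x, ((plists n y).image (List.cons s(x, y))).card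
        ≤ ∑ _y ∈ nb x, (2 * (D + 1)) ^ n :=
          Finset.sum_le_sum fun y _ => Finset.card_image_le.trans (ih y)
      _ = (nb x).card * (2 * (D + 1)) ^ n := by rw [Finset.sum_const, smul_eq_mul]
      _ ≤ _ := Nat.mul_le_mul_right _ (card_nb x)

theorem length_plists {n : ℕ} {x : V D} {l : List (Sym2 (V D))} (h : l ∈ plists n x) :
    l.length = n := by
  induction n generalizing x l with
  | zero =>
    rw [plists, Finset.mem_singleton] at h
    rw [h]
    rfl
  | succ n ih =>
    rw [plists, Finset.mem_biUnion] at h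
    obtain ⟨y, -, hl⟩ := h
    rw [Finset.mem_image] at hl
    obtain ⟨l', hl', rfl⟩ := hl
    rw [List.length_cons, ih hl']

theorem height_plists {n : ℕ} {x : V D} {l : List (Sym2 (V D))} (h : l ∈ plists n x) :
    ∀ e ∈ l, ∀ z ∈ e, |z.2 - x.2| ≤ n := by
  induction n generalizing x l with
  | zero =>
    rw [plists, Finset.mem_singleton] at h
    subst h
    simp
  | succ n ih =>
    rw [plists, Finset.mem_biUnion] at h
    obtain ⟨y, hy, hl⟩ := h
    rw [Finset.mem_image] at hl
    obtain ⟨l', hl', rfl⟩ := hl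
    have hxy := nb_height hy
    intro e he z hz
    rcases List.mem_cons.1 he with rfl | he
    · rw [Sym2.mem_iff] at hz
      rcases hz with rfl | rfl
      · simp
        positivity
      · push_cast
        have : (0 : ℤ) ≤ n := by positivity
        omega
    · have := ih hl' e he z hz
      have h3 : |z.2 - x.2| ≤ |z.2 - y.2| + |y.2 - x.2| := abs_sub_le _ _ _
      push_cast
      omega

/-- the edge is open -/
def isOpen (ω : Edge D → Bool) (e : Sym2 (V D)) : Prop :=
  ∃ h : e ∈ (lattice D).edgeSet, ω ⟨e, h⟩ = true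

/-- both endpoints in `R` -/
def inR (R : Set (V D)) (e : Sym2 (V D)) : Prop := ∀ z ∈ e, z ∈ R

/-- there is an open self-avoiding path of length `n` from `x` with no edge in `R` -/
def Pp (R : Set (V D)) (ω : Edge D → Bool) (x : V D) (n : ℕ) : Prop :=
  ∃ l ∈ plists n x, l.Nodup ∧ ∀ e ∈ l, ¬ inR R e ∧ isOpen ω e

theorem take_mem_plists {ω : Edge D → Bool} {x y : V D} (γ : (openG ω).Walk x y) (n : ℕ)
    (hn : n ≤ γ.length) : γ.edges.take n ∈ plists n x := by
  induction n generalizing x with
  | zero => simp [plists]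
  | succ n ih =>
    cases γ with
    | nil => simp at hn
    | cons h γ =>
      rename_i w
      rw [Walk.edges_cons, List.take_succ_cons, plists, Finset.mem_biUnion]
      refine ⟨w, mem_nb h.1, ?_⟩
      rw [Finset.mem_image]
      exact ⟨_, ih γ (by rw [Walk.length_cons] at hn; omega), rfl⟩

theorem isOpen_of_mem {ω : Edge D → Bool} {x y : V D} (γ : (openG ω).Walk x y) {e : Sym2 (V D)}
    (he : e ∈ γ.edges) : isOpen ω e := by
  have h := γ.edges_subset_edgeSet he
  induction e using Sym2.ind with
  | _ a b => exact h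

theorem Pp_of_path {R : Set (V D)} {ω : Edge D → Bool} {x y : V D} (γ : (openG ω).Walk x y)
    (hγ : γ.IsPath) (hR : ∀ e ∈ γ.edges, ¬ inR R e) {n : ℕ} (hn : n ≤ γ.length) : Pp R ω x n :=
  ⟨_, take_mem_plists γ n hn, hγ.isTrail.edges_nodup.sublist (List.take_sublist n _),
    fun e he => ⟨hR e (List.mem_of_mem_take he), isOpen_of_mem γ (List.mem_of_mem_take he)⟩⟩

theorem height_walk {ω : Edge D → Bool} {x y : V D} (γ : (openG ω).Walk x y) :
    |y.2 - x.2| ≤ γ.length := by
  induction γ with
  | nil => simp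
  | cons h γ ih =>
    rename_i u v w
    have h1 := adj_height h.1
    have h3 : |w.2 - u.2| ≤ |w.2 - v.2| + |v.2 - u.2| := abs_sub_le _ _ _
    rw [Walk.length_cons]
    push_cast
    omega

theorem bern_true (p : unitInterval) :
    bernoulliMeasure true false p {true} = ENNReal.ofReal p := by
  rw [bernoulliMeasure_apply_of_mem_of_notMem p (measurableSet_singleton _) (by simp) (by simp)]
  rw [ENNReal.ofReal]
  congr 1
  ext
  simp [Real.coe_toNNReal _ p.2.1]

theorem bern_false (p : unitInterval) :
    bernoulliMeasure true false p {false} = ENNReal.ofReal (1 - p) := by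
  rw [bernoulliMeasure_apply_of_notMem_of_mem p (measurableSet_singleton _) (by simp) (by simp)]
  rw [ENNReal.ofReal]
  congr 1
  ext
  simp [Real.coe_toNNReal _ (show (0 : ℝ) ≤ 1 - p by linarith [p.2.2])]

/-- probability that a self-avoiding list of edges outside `R` is open -/
theorem prob_list (R : Set (V D)) (p q : unitInterval) {l : List (Sym2 (V D))} (hl : l.Nodup)
    (hR : ∀ e ∈ l, ¬ inR R e) :
    perc D R p q {ω | ∀ e ∈ l, isOpen ω e} ≤ ENNReal.ofReal p ^ l.length := by
  classical
  by_cases hE : ∀ e ∈ l, e ∈ (lattice D).edgeSet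
  · set A : Finset (Edge D) := l.toFinset.subtype (· ∈ (lattice D).edgeSet) with hA
    have hcard : A.card = l.length := by
      rw [hA, Finset.card_subtype, Finset.filter_true_of_mem, List.toFinset_card_of_nodup hl]
      intro e he
      exact hE e (List.mem_toFinset.1 he)
    have hsub : {ω : Edge D → Bool | ∀ e ∈ l, isOpen ω e} ⊆ Set.pi A fun _ => {true} := by
      intro ω hω e he
      have hω' : ∀ e ∈ l, isOpen ω e := hω
      have he' : (e : Sym2 (V D)) ∈ l := by
        have := Finset.mem_subtype.1 (Finset.mem_coe.1 he)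
        exact List.mem_toFinset.1 this
      obtain ⟨h1, h2⟩ := hω' e he'
      exact h2
    refine (measure_mono hsub).trans ?_
    rw [perc, Measure.infinitePi_pi _ (fun _ _ => measurableSet_singleton _), ← hcard,
      ← Finset.prod_const]
    refine (Finset.prod_congr rfl fun e he => ?_).le
    have he' : (e : Sym2 (V D)) ∈ l := List.mem_toFinset.1 (Finset.mem_subtype.1 he)
    have hne : ¬ ∀ z ∈ (e : Sym2 (V D)), z ∈ R := hR e he'
    rw [if_neg hne, bern_true]
  · have : {ω : Edge D → Bool | ∀ e ∈ l, isOpen ω e} = ∅ := by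
      rw [Set.eq_empty_iff_forall_notMem]
      intro ω hω
      exact hE fun e he => (hω e he).1
    rw [this, measure_empty]
    exact zero_le

/-- path counting -/
theorem prob_Pp (R : Set (V D)) (p q : unitInterval) (x : V D) (n : ℕ) :
    perc D R p q {ω | Pp R ω x n} ≤ ENNReal.ofReal (2 * (D + 1) * p) ^ n := by
  classical
  set T := (plists n x).filter fun l => l.Nodup ∧ ∀ e ∈ l, ¬ inR R e with hT
  have hsub : {ω : Edge D → Bool | Pp R ω x n} ⊆ ⋃ l ∈ T, {ω | ∀ e ∈ l, isOpen ω e} := by
    rintro ω ⟨l, h1, h2, h3⟩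
    simp only [Set.mem_iUnion]
    refine ⟨l, ?_, fun e he => (h3 e he).2⟩
    rw [hT, Finset.mem_filter]
    exact ⟨h1, h2, fun e he => (h3 e he).1⟩
  refine (measure_mono hsub).trans ((measure_biUnion_finset_le _ _).trans ?_)
  calc ∑ l ∈ T, perc D R p q {ω | ∀ e ∈ l, isOpen ω e}
      ≤ ∑ _l ∈ T, ENNReal.ofReal p ^ n := by
        refine Finset.sum_le_sum fun l hl => ?_
        rw [hT, Finset.mem_filter] at hl
        have := prob_list R p q hl.2.1 hl.2.2
        rwa [length_plists hl.1] at this
    _ = (T.card : ℝ≥0∞) * ENNReal.ofReal p ^ n := by rw [Finset.sum_const, nsmul_eq_mul]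
    _ ≤ ((2 * (D + 1)) ^ n : ℕ) * ENNReal.ofReal p ^ n := by
        gcongr
        exact_mod_cast (Finset.card_le_card (Finset.filter_subset _ _)).trans (card_plists n x)
    _ = _ := by
        have h1 : ENNReal.ofReal (2 * (D + 1) * p) = ((2 * (D + 1) : ℕ) : ℝ≥0∞) *
            ENNReal.ofReal p := by
          rw [ENNReal.ofReal_mul (by positivity)]
          congr 1
          rw [← ENNReal.ofReal_natCast]
          push_cast
          rfl
        rw [Nat.cast_pow, h1, mul_pow]

end Q292.Stack
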