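import Mathlib
import Pool.Agent.Q292.Stack.Perc

/-!
# Deterministic statements on crossings
-/

namespace Q292.Stack

open SimpleGraph

variable {D : ℕ} {ω : Edge D → Bool} {R : Set (V D)}

/-- walk whose edges are not inside `R` -/
def NW (R : Set (V D)) (ω : Edge D → Bool) (u w : V D) : Prop :=
  ∃ δ : (openG ω).Walk u w, δ.IsPath ∧ ∀ e ∈ δ.edges, ¬ inR R e

theorem NW_of_walk {u w : V D} (δ : (openG ω).Walk u w) (h : ∀ e ∈ δ.edges, ¬ inR R e) :
    NW R ω u w := by
  classical
  exact ⟨δ.bypass, δ.bypass_isPath, fun e he => h e (δ.edges_bypass_subset he)⟩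

/-- crossing from a part `A` of `R` to the rest of `R` -/
theorem crossing {A : Set (V D)} {x y : V D} (γ : (openG ω).Walk x y) (hy : y ∈ R)
    (hyA : y ∉ A) (hx : x ∈ A ∨ (x ∉ R ∧ ∃ u ∈ A, ∃ δ : (openG ω).Walk u x,
      ∀ e ∈ δ.edges, ¬ inR R e)) (hA : A ⊆ R) :
    ∃ u ∈ A, ∃ w ∈ R, w ∉ A ∧ ((openG ω).Adj u w ∨ NW R ω u w) := by
  induction γ with
  | nil =>
    rcases hx with hx | ⟨hx, -⟩
    · exact absurd hx hyA
    · exact absurd hy hx
  | cons h γ ih =>
    rename_i x x' y
    rcases hx with hx | ⟨hx, u, hu, δ, hδ⟩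
    · by_cases h1 : x' ∈ R
      · by_cases h2 : x' ∈ A
        · exact ih hy hyA (Or.inl h2)
        · exact ⟨x, hx, x', h1, h2, Or.inl h⟩
      · refine ih hy hyA (Or.inr ⟨h1, x, hx, Walk.cons h Walk.nil, fun e he => ?_⟩)
        simp only [Walk.edges_cons, Walk.edges_nil, List.mem_singleton] at he
        rw [he]
        intro hin
        exact h1 (hin x' (Sym2.mem_mk_right x x'))
    · have hδ' : ∀ e ∈ (δ.concat h).edges, ¬ inR R e := by
        intro e he
        rw [Walk.edges_concat, List.concat_eq_append, List.mem_append, List.mem_singleton] at he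
        rcases he with he | rfl
        · exact hδ e he
        · intro hin
          exact hx (hin x (Sym2.mem_mk_left x x'))
      by_cases h1 : x' ∈ R
      · by_cases h2 : x' ∈ A
        · exact ih hy hyA (Or.inl h2)
        · exact ⟨u, hu, x', h1, h2, Or.inr (NW_of_walk (δ.concat h) hδ')⟩
      · exact ih hy hyA (Or.inr ⟨h1, u, hu, δ.concat h, hδ'⟩)

/-- last vertex in `R` -/
theorem last_in {x v : V D} (γ : (openG ω).Walk x v) :
    (∃ u ∈ R, (openG ω).Reachable x u ∧ ∃ δ : (openG ω).Walk u v, ∀ e ∈ δ.edges, ¬ inR R e) ∨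
      ∀ z ∈ γ.support, z ∉ R := by
  induction γ with
  | nil =>
    rename_i x
    by_cases h : x ∈ R
    · exact Or.inl ⟨x, h, Reachable.refl x, Walk.nil, by simp⟩
    · right
      intro z hz
      rw [Walk.support_nil, List.mem_singleton] at hz
      rw [hz]
      exact h
  | cons h γ ih =>
    rename_i x x' y
    rcases ih with ⟨u, hu, h1, h2⟩ | h1
    · exact Or.inl ⟨u, hu, h.reachable.trans h1, h2⟩
    · by_cases hx : x ∈ R
      · refine Or.inl ⟨x, hx, Reachable.refl x, Walk.cons h γ, fun e he => ?_⟩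
        rw [Walk.edges_cons, List.mem_cons] at he
        rcases he with rfl | he
        · intro hin
          exact h1 x' γ.start_mem_support (hin x' (Sym2.mem_mk_right x x'))
        · intro hin
          induction e using Sym2.ind with
          | _ a b =>
            exact h1 a (Walk.fst_mem_support_of_mem_edges γ he) (hin a (Sym2.mem_mk_left a b))
      · right
        intro z hz
        rw [Walk.support_cons, List.mem_cons] at hz
        rcases hz with rfl | hz
        · exact hx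
        · exact h1 z hz

/-- signed height -/
def ht (σ : ℤ) (v : V D) : ℤ := σ * v.2

theorem ht_lip {σ : ℤ} (hσ : σ = 1 ∨ σ = -1) (x y : V D) : |ht σ x - ht σ y| = |x.2 - y.2| := by
  rcases hσ with rfl | rfl
  · simp [ht]
  · rw [ht, ht, abs_sub_comm x.2 y.2]
    congr 1
    ring

theorem NW_len {σ : ℤ} (hσ : σ = 1 ∨ σ = -1) {u w : V D} (h : NW R ω u w) {n : ℕ}
    (hn : (n : ℤ) ≤ |ht σ w - ht σ u|) : Pp R ω u n ∧ Pp R ω w n := by
  obtain ⟨δ, hδ, hR⟩ := h
  have h1 := height_walk δ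
  rw [ht_lip hσ] at hn
  have h2 : n ≤ δ.length := by
    have : (n : ℤ) ≤ δ.length := hn.trans h1
    exact_mod_cast this
  refine ⟨Pp_of_path δ hδ hR h2, Pp_of_path δ.reverse hδ.reverse ?_ (by rwa [Walk.length_reverse])⟩
  intro e he
  rw [Walk.edges_reverse, List.mem_reverse] at he
  exact hR e he

/-- A gap that cannot be crossed. -/
def Blocked (R : Set (V D)) (σ : ℤ) (ω : Edge D → Bool) (s : ℤ) : Prop :=
  ∀ x ∈ R, ht σ x ≤ s → ∀ y ∈ R, s < ht σ y → ¬ (openG ω).Reachable x y

/-- The cut lemma. -/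
theorem blocked_of {σ : ℤ} (hσ : σ = 1 ∨ σ = -1) {h0 h1 s : ℤ} {L : ℕ} (hs0 : h0 + L ≤ s)
    (_hs1 : s < h1)
    (c1 : ∀ e : Sym2 (V D), inR R e → (∃ x ∈ e, ht σ x = s) → (∃ y ∈ e, ht σ y = s + 1) →
      ¬ isOpen ω e)
    (c2 : ∀ i < L, ∀ u ∈ R, ht σ u = s - i → ¬ Pp R ω u (i + 1))
    (c3 : ∀ u ∈ R, h0 < ht σ u → ht σ u < h1 → ¬ Pp R ω u L)
    (c4 : ∀ w ∈ R, h1 ≤ ht σ w → ¬ Pp R ω w (ht σ w - h0).toNat) :
    Blocked R σ ω s := by
  intro x hx hxs y hy hys hxy
  obtain ⟨γ⟩ := hxy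
  obtain ⟨u, ⟨hu, hus⟩, w, hw, hwA, h⟩ := crossing (A := {z | z ∈ R ∧ ht σ z ≤ s}) γ hy
    (fun h => by
      have h' : y ∈ R ∧ ht σ y ≤ s := h
      omega) (Or.inl ⟨hx, hxs⟩) (fun z hz => hz.1)
  have hws : s < ht σ w := by
    by_contra hcon
    exact hwA ⟨hw, not_lt.1 hcon⟩
  rcases h with h | h
  · have hl := ht_lip hσ w u
    have ha := adj_height h.1
    have h2 : |ht σ w - ht σ u| ≤ 1 := by rw [hl]; exact ha
    rw [abs_le] at h2
    refine c1 s(u, w) ?_ ⟨u, Sym2.mem_mk_left u w, by omega⟩ ⟨w, Sym2.mem_mk_right u w, by omega⟩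
      ⟨h.1, h.2⟩
    intro z hz
    rw [Sym2.mem_iff] at hz
    rcases hz with rfl | rfl
    · exact hu
    · exact hw
  · have habs : |ht σ w - ht σ u| = ht σ w - ht σ u := abs_of_nonneg (by omega)
    by_cases hu0 : h0 < ht σ u
    · by_cases hi : s - ht σ u < L
      · refine c2 (s - ht σ u).toNat (by omega) u hu (by omega) ?_
        exact (NW_len hσ h (n := (s - ht σ u).toNat + 1) (by rw [habs]; push_cast; omega)).1
      · refine c3 u hu hu0 (by omega) ?_
        exact (NW_len hσ h (n := L) (by rw [habs]; omega)).1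
    · by_cases hw1 : ht σ w < h1
      · refine c3 w hw (by omega) hw1 ?_
        exact (NW_len hσ h (n := L) (by rw [habs]; omega)).2
      · refine c4 w hw (by omega) ?_
        exact (NW_len hσ h (n := (ht σ w - h0).toNat) (by rw [habs]; omega)).2

/-- balls -/
def Bl : ℕ → V D → Finset (V D)
  | 0, x => {x}
  | n + 1, x => insert x ((nb x).biUnion (Bl n))

theorem mem_Bl {x v : V D} (γ : (openG ω).Walk x v) {n : ℕ} (hn : γ.length ≤ n) : v ∈ Bl n x := by
  induction n generalizing x with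
  | zero =>
    cases γ with
    | nil => simp [Bl]
    | cons h γ => simp at hn
  | succ n ih =>
    cases γ with
    | nil => simp [Bl]
    | cons h γ =>
      rename_i w
      rw [Bl, Finset.mem_insert]
      right
      rw [Finset.mem_biUnion]
      exact ⟨w, mem_nb h.1, ih γ (by rw [Walk.length_cons] at hn; omega)⟩

/-- If the cluster is infinite and meets `R` in a finite set, there are long open paths with
edges outside `R` from that set. -/
theorem long_path (F : Finset (V D)) (h0 : (0 : V D) ∈ R)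
    (hF : ∀ v ∈ R, (openG ω).Reachable 0 v → v ∈ F) (hinf : (cluster ω).Infinite) (n : ℕ) :
    ∃ x ∈ F, Pp R ω x n := by
  classical
  obtain ⟨v, hv, hvn⟩ := hinf.exists_notMem_finset (F.biUnion (Bl n))
  obtain ⟨γ⟩ : (openG ω).Reachable 0 v := hv
  rcases last_in (R := R) γ with ⟨u, hu, h1, δ, hδ⟩ | h1
  · refine ⟨u, hF u hu h1, ?_⟩
    obtain ⟨δ', hδ', hR⟩ := NW_of_walk δ hδ
    refine Pp_of_path δ' hδ' hR ?_
    by_contra hcon
    push Not at hcon
    refine hvn ?_
    rw [Finset.mem_biUnion]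
    exact ⟨u, hF u hu h1, mem_Bl δ' hcon.le⟩
  · exact absurd h0 (h1 0 γ.start_mem_support)

end Q292.Stack
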