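import Mathlib
import Pool.Agent.Q292.Stack.Cut

/-!
# Probability that no gap of a long thin stretch is blocked
-/

namespace Q292.Stack

open MeasureTheory ProbabilityTheory SimpleGraph
open scoped ENNReal

variable {D : ℕ}

instance perc_prob (R : Set (V D)) (p q : unitInterval) : IsProbabilityMeasure (perc D R p q) := by
  unfold perc
  infer_instance

/-- `A` depends only on the coordinates in `S` -/
def DepOn (S : Finset (Edge D)) (A : Set (Edge D → Bool)) : Prop :=
  ∀ ω ω' : Edge D → Bool, (∀ e ∈ S, ω e = ω' e) → (ω ∈ A ↔ ω' ∈ A)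

theorem DepOn.compl {S : Finset (Edge D)} {A : Set (Edge D → Bool)} (h : DepOn S A) :
    DepOn S Aᶜ := fun ω ω' hω => not_congr (h ω ω' hω)

theorem DepOn.mono {S T : Finset (Edge D)} {A : Set (Edge D → Bool)} (h : DepOn S A) (hST : S ⊆ T) :
    DepOn T A := fun ω ω' hω => h ω ω' fun e he => hω e (hST he)

theorem DepOn.inter {S : Finset (Edge D)} {A B : Set (Edge D → Bool)} (hA : DepOn S A)
    (hB : DepOn S B) : DepOn S (A ∩ B) := fun ω ω' hω => and_congr (hA ω ω' hω) (hB ω ω' hω)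

open Classical in
/-- extension by `false` -/
noncomputable def extE (S : Finset (Edge D)) (w : S → Bool) : Edge D → Bool :=
  fun e => if h : e ∈ S then w ⟨e, h⟩ else false

theorem DepOn.eq_preimage {S : Finset (Edge D)} {A : Set (Edge D → Bool)} (h : DepOn S A) :
    A = (fun (ω : Edge D → Bool) (e : S) => ω e) ⁻¹' {w | extE S w ∈ A} := by
  ext ω
  rw [Set.mem_preimage]
  change ω ∈ A ↔ extE S (fun e : S => ω e) ∈ A
  refine h _ _ fun e he => ?_
  rw [extE, dif_pos he]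

theorem DepOn.measurable {S : Finset (Edge D)} {A : Set (Edge D → Bool)} (h : DepOn S A) :
    MeasurableSet A := by
  rw [h.eq_preimage]
  exact (measurable_pi_lambda _ fun e => measurable_pi_apply _) (Set.toFinite _).measurableSet

theorem DepOn.indep {S T : Finset (Edge D)} {A B : Set (Edge D → Bool)} (hA : DepOn S A)
    (hB : DepOn T B) (hST : Disjoint S T) (R : Set (V D)) (p q : unitInterval) :
    (perc D R p q).real (A ∩ B) = (perc D R p q).real A * (perc D R p q).real B := by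
  classical
  have h1 : iIndepFun (fun (e : Edge D) (ω : Edge D → Bool) => ω e) (perc D R p q) := by
    unfold perc
    exact iIndepFun_infinitePi (X := fun _ ω => ω) (fun _ => measurable_id)
  have h2 := h1.indepFun_finset S T hST (fun e => measurable_pi_apply e)
  have h3 := h2.measure_inter_preimage_eq_mul {w | extE S w ∈ A} {w | extE T w ∈ B}
    (Set.toFinite _).measurableSet (Set.toFinite _).measurableSet
  rw [← hA.eq_preimage, ← hB.eq_preimage] at h3
  rw [Measure.real, h3, ENNReal.toReal_mul]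
  rfl

theorem plists_take {n : ℕ} {x : V D} {l : List (Sym2 (V D))} (h : l ∈ plists n x) {m : ℕ}
    (hm : m ≤ n) : l.take m ∈ plists m x := by
  induction n generalizing x l m with
  | zero =>
    have : m = 0 := by omega
    subst this
    simp [plists]
  | succ n ih =>
    cases m with
    | zero => simp [plists]
    | succ m =>
      rw [plists, Finset.mem_biUnion] at h
      obtain ⟨y, hy, hl⟩ := h
      rw [Finset.mem_image] at hl
      obtain ⟨l', hl', rfl⟩ := hl
      rw [List.take_succ_cons, plists, Finset.mem_biUnion]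
      refine ⟨y, hy, ?_⟩
      rw [Finset.mem_image]
      exact ⟨_, ih hl' (by omega), rfl⟩

theorem Pp_mono {R : Set (V D)} {ω : Edge D → Bool} {x : V D} {n m : ℕ} (h : Pp R ω x n)
    (hm : m ≤ n) : Pp R ω x m := by
  obtain ⟨l, h1, h2, h3⟩ := h
  exact ⟨l.take m, plists_take h1 hm, h2.sublist (List.take_sublist m l),
    fun e he => h3 e (List.mem_of_mem_take he)⟩

/-- first condition at the gap `s` -/
def C1 (R : Set (V D)) (σ s : ℤ) : Set (Edge D → Bool) :=
  {ω | ∀ e : Sym2 (V D), inR R e → (∃ x ∈ e, ht σ x = s) → (∃ y ∈ e, ht σ y = s + 1) →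
    ¬ isOpen ω e}

/-- second condition at the gap `s` -/
def C2 (R : Set (V D)) (σ : ℤ) (L : ℕ) (s : ℤ) : Set (Edge D → Bool) :=
  {ω | ∀ i < L, ∀ u ∈ R, ht σ u = s - i → ¬ Pp R ω u (i + 1)}

open Classical in
/-- edges of `R` across the gap -/
noncomputable def S1 (R : Set (V D)) (T : Finset (V D)) (σ s : ℤ) : Finset (Edge D) :=
  (((T.filter fun v => ht σ v = s) ×ˢ (T.filter fun v => ht σ v = s + 1)).image
    fun P => s(P.1, P.2)).subtype (· ∈ (lattice D).edgeSet) |>.filter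
      fun e => inR R (e : Sym2 (V D))

open Classical in
/-- edges outside `R` near the gap -/
noncomputable def S2 (R : Set (V D)) (T : Finset (V D)) (σ : ℤ) (L : ℕ) (s : ℤ) :
    Finset (Edge D) :=
  ((((Finset.range L) ×ˢ T).filter fun P => ht σ P.2 = s - P.1).biUnion fun P =>
    (plists (P.1 + 1) P.2).biUnion fun l => l.toFinset).subtype (· ∈ (lattice D).edgeSet) |>.filter
      fun e => ¬ inR R (e : Sym2 (V D))

section
variable {R : Set (V D)} {T : Finset (V D)} {σ h0 h1 : ℤ} {L : ℕ} {s : ℤ}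

theorem mem_S1 (hT : ∀ v ∈ R, h0 < ht σ v → ht σ v < h1 → v ∈ T) (hs0 : h0 < s) (hs1 : s + 1 < h1)
    {e : Edge D} (hR : inR R (e : Sym2 (V D))) (hx : ∃ x ∈ (e : Sym2 (V D)), ht σ x = s)
    (hy : ∃ y ∈ (e : Sym2 (V D)), ht σ y = s + 1) : e ∈ S1 R T σ s := by
  classical
  obtain ⟨e, he⟩ := e
  obtain ⟨x, hx, hxs⟩ := hx
  obtain ⟨y, hy, hys⟩ := hy
  simp only at hR hx hy
  have hxy : x ≠ y := by
    rintro rfl
    omega
  have hexy : e = s(x, y) := (Sym2.mem_and_mem_iff hxy).1 ⟨hx, hy⟩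
  rw [S1, Finset.mem_filter, Finset.mem_subtype, Finset.mem_image]
  refine ⟨⟨(x, y), ?_, hexy.symm⟩, hR⟩
  rw [Finset.mem_product, Finset.mem_filter, Finset.mem_filter]
  exact ⟨⟨hT x (hR x hx) (by omega) (by omega), hxs⟩, hT y (hR y hy) (by omega) (by omega), hys⟩

theorem C1_eq (hT : ∀ v ∈ R, h0 < ht σ v → ht σ v < h1 → v ∈ T) (hs0 : h0 < s) (hs1 : s + 1 < h1) :
    Set.pi (S1 R T σ s) (fun _ => {false}) ⊆ C1 R σ s := by
  intro ω hω e hR hx hy hop
  obtain ⟨he, ho⟩ := hop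
  have := hω ⟨e, he⟩ (mem_S1 hT hs0 hs1 (e := ⟨e, he⟩) hR hx hy)
  rw [Set.mem_singleton_iff] at this
  rw [this] at ho
  exact absurd ho (by decide)

theorem C1_dep (hT : ∀ v ∈ R, h0 < ht σ v → ht σ v < h1 → v ∈ T) (hs0 : h0 < s)
    (hs1 : s + 1 < h1) : DepOn (S1 R T σ s) (C1 R σ s) := by
  have key : ∀ ω ω' : Edge D → Bool, (∀ e ∈ S1 R T σ s, ω e = ω' e) → ω ∈ C1 R σ s →
      ω' ∈ C1 R σ s := by
    intro ω ω' h hω e hR hx hy hop
    obtain ⟨he, ho⟩ := hop
    refine hω e hR hx hy ⟨he, ?_⟩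
    rw [h ⟨e, he⟩ (mem_S1 hT hs0 hs1 (e := ⟨e, he⟩) hR hx hy)]
    exact ho
  exact fun ω ω' h => ⟨key ω ω' h, key ω' ω fun e he => (h e he).symm⟩

theorem C2_dep (hT : ∀ v ∈ R, h0 < ht σ v → ht σ v < h1 → v ∈ T) (hs0 : h0 + L ≤ s)
    (hs1 : s + 1 < h1) : DepOn (S2 R T σ L s) (C2 R σ L s) := by
  classical
  have key : ∀ ω ω' : Edge D → Bool, (∀ e ∈ S2 R T σ L s, ω e = ω' e) → ω ∈ C2 R σ L s →
      ω' ∈ C2 R σ L s := by
    intro ω ω' h hω i hi u hu hus hP
    refine hω i hi u hu hus ?_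
    obtain ⟨l, h1', h2, h3⟩ := hP
    refine ⟨l, h1', h2, fun e he => ⟨(h3 e he).1, ?_⟩⟩
    obtain ⟨hE, ho⟩ := (h3 e he).2
    refine ⟨hE, ?_⟩
    rw [h ⟨e, hE⟩ ?_]
    · exact ho
    · rw [S2, Finset.mem_filter, Finset.mem_subtype, Finset.mem_biUnion]
      refine ⟨⟨(i, u), ?_, ?_⟩, (h3 e he).1⟩
      · rw [Finset.mem_filter, Finset.mem_product, Finset.mem_range]
        exact ⟨⟨hi, hT u hu (by omega) (by omega)⟩, hus⟩
      · rw [Finset.mem_biUnion]
        exact ⟨l, h1', List.mem_toFinset.2 he⟩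
  exact fun ω ω' h => ⟨key ω ω' h, key ω' ω fun e he => (h e he).symm⟩

theorem S1_S2 : Disjoint (S1 R T σ s) (S2 R T σ L s) := by
  classical
  rw [Finset.disjoint_left]
  intro e h1 h2
  rw [S1, Finset.mem_filter] at h1
  rw [S2, Finset.mem_filter] at h2
  exact h2.2 h1.2

theorem S1_height {e : Edge D} (he : e ∈ S1 R T σ s) : ∀ z ∈ (e : Sym2 (V D)),
    s ≤ ht σ z ∧ ht σ z ≤ s + 1 := by
  classical
  rw [S1, Finset.mem_filter, Finset.mem_subtype, Finset.mem_image] at he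
  obtain ⟨⟨⟨x, y⟩, hP, hxy⟩, -⟩ := he
  rw [Finset.mem_product, Finset.mem_filter, Finset.mem_filter] at hP
  intro z hz
  rw [← hxy, Sym2.mem_iff] at hz
  have h1 := hP.1.2
  have h2 := hP.2.2
  simp only at h1 h2
  rcases hz with rfl | rfl <;> omega

theorem S2_height (hσ : σ = 1 ∨ σ = -1) {e : Edge D} (he : e ∈ S2 R T σ L s) :
    ∀ z ∈ (e : Sym2 (V D)), s - 2 * L ≤ ht σ z ∧ ht σ z ≤ s + 1 := by
  classical
  rw [S2, Finset.mem_filter, Finset.mem_subtype, Finset.mem_biUnion] at he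
  obtain ⟨⟨⟨i, u⟩, hP, hl⟩, -⟩ := he
  rw [Finset.mem_filter, Finset.mem_product, Finset.mem_range] at hP
  rw [Finset.mem_biUnion] at hl
  obtain ⟨l, hl, he⟩ := hl
  intro z hz
  have h1 := height_plists hl e (List.mem_toFinset.1 he) z hz
  rw [← ht_lip hσ z u] at h1
  have h2 := hP.1.1
  have h3 := hP.2
  simp only at h1 h2 h3
  push_cast at h1
  rw [abs_le] at h1
  omega

theorem card_S1 {N0 : ℕ} (hN : ∀ h, (T.filter fun v => ht σ v = h).card ≤ N0) :
    (S1 R T σ s).card ≤ N0 ^ 2 := by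
  classical
  rw [S1]
  refine (Finset.card_filter_le _ _).trans ?_
  rw [Finset.card_subtype]
  refine (Finset.card_filter_le _ _).trans (Finset.card_image_le.trans ?_)
  rw [Finset.card_product, pow_two]
  exact Nat.mul_le_mul (hN _) (hN _)

end

theorem real_bern_false (p : unitInterval) :
    (bernoulliMeasure true false p).real {false} = 1 - p := by
  rw [Measure.real, bern_false, ENNReal.toReal_ofReal (by linarith [p.2.2])]

theorem prob_Pp_real (R : Set (V D)) (p q : unitInterval) (x : V D) (n : ℕ) :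
    (perc D R p q).real {ω | Pp R ω x n} ≤ (2 * (D + 1) * p) ^ n := by
  have h := prob_Pp R p q x n
  have hp : 0 ≤ 2 * ((D : ℝ) + 1) * p := mul_nonneg (by positivity) p.2.1
  rw [← ENNReal.ofReal_pow hp] at h
  exact ENNReal.toReal_le_of_le_ofReal (by positivity) h

section
variable {R : Set (V D)} {T : Finset (V D)} {σ h0 h1 : ℤ} {L : ℕ} {s : ℤ}

theorem prob_C1 (hT : ∀ v ∈ R, h0 < ht σ v → ht σ v < h1 → v ∈ T) (hs0 : h0 < s)
    (hs1 : s + 1 < h1) {N0 : ℕ} (hN : ∀ h, (T.filter fun v => ht σ v = h).card ≤ N0)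
    (p q : unitInterval) : (1 - (q : ℝ)) ^ N0 ^ 2 ≤ (perc D R p q).real (C1 R σ s) := by
  classical
  have h2 : (perc D R p q).real (Set.pi (S1 R T σ s) fun _ => {false}) =
      (1 - (q : ℝ)) ^ (S1 R T σ s).card := by
    rw [Measure.real, perc, Measure.infinitePi_pi _ (fun _ _ => measurableSet_singleton _),
      ENNReal.toReal_prod, ← Finset.prod_const]
    refine Finset.prod_congr rfl fun e he => ?_
    have hR : ∀ z ∈ (e : Sym2 (V D)), z ∈ R := by
      rw [S1, Finset.mem_filter] at he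
      exact he.2
    rw [if_pos hR]
    exact real_bern_false q
  have h3 : (1 - (q : ℝ)) ^ N0 ^ 2 ≤ (1 - (q : ℝ)) ^ (S1 R T σ s).card :=
    pow_le_pow_of_le_one (by linarith [q.2.2]) (by linarith [q.2.1]) (card_S1 hN)
  rw [← h2] at h3
  exact h3.trans (measureReal_mono (C1_eq hT hs0 hs1))

theorem prob_C2 (hT : ∀ v ∈ R, h0 < ht σ v → ht σ v < h1 → v ∈ T) (hs0 : h0 + L ≤ s)
    (hs1 : s + 1 < h1) {N0 : ℕ} (hN : ∀ h, (T.filter fun v => ht σ v = h).card ≤ N0)
    (p q : unitInterval) (hp : 4 * N0 * (2 * (D + 1) * (p : ℝ)) ≤ 1) (hN0 : 1 ≤ N0) :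
    1 / 2 ≤ (perc D R p q).real (C2 R σ L s) := by
  classical
  set lam : ℝ := 2 * (D + 1) * p with hlam
  have hlam0 : 0 ≤ lam := mul_nonneg (by positivity) p.2.1
  have hN0' : (1 : ℝ) ≤ N0 := by exact_mod_cast hN0
  have hlam1 : lam ≤ 1 / 4 := by
    have : 4 * 1 * lam ≤ 4 * N0 * lam := by gcongr
    linarith
  have hmeas := (C2_dep (R := R) hT hs0 hs1).measurable
  have hcompl : (perc D R p q).real (C2 R σ L s)ᶜ ≤ 1 / 2 := by
    have hsub : (C2 R σ L s)ᶜ ⊆ ⋃ i ∈ Finset.range L, ⋃ u ∈ T.filter (fun v => ht σ v = s - i),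
        {ω | Pp R ω u (i + 1)} := by
      intro ω hω
      have hω' : ¬ ∀ i < L, ∀ u ∈ R, ht σ u = s - i → ¬ Pp R ω u (i + 1) := hω
      push Not at hω'
      obtain ⟨i, hi, u, hu, hus, hP⟩ := hω'
      simp only [Set.mem_iUnion]
      refine ⟨i, Finset.mem_range.2 hi, u, ?_, hP⟩
      rw [Finset.mem_filter]
      exact ⟨hT u hu (by omega) (by omega), hus⟩
    have h1 : (perc D R p q).real (C2 R σ L s)ᶜ ≤
        ∑ i ∈ Finset.range L, (N0 : ℝ) * lam ^ (i + 1) := by
      refine (measureReal_mono hsub (measure_ne_top _ _)).trans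
        ((measureReal_biUnion_finset_le _ _).trans ?_)
      refine Finset.sum_le_sum fun i _ => ?_
      refine (measureReal_biUnion_finset_le _ _).trans ?_
      calc ∑ u ∈ T.filter (fun v => ht σ v = s - i), (perc D R p q).real {ω | Pp R ω u (i + 1)}
          ≤ ∑ _u ∈ T.filter (fun v => ht σ v = s - i), lam ^ (i + 1) :=
            Finset.sum_le_sum fun u _ => prob_Pp_real R p q u (i + 1)
        _ = ((T.filter (fun v => ht σ v = s - i)).card : ℝ) * lam ^ (i + 1) := by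
            rw [Finset.sum_const, nsmul_eq_mul]
        _ ≤ _ := by
            gcongr
            exact_mod_cast hN _
    have h2 : ∑ i ∈ Finset.range L, (N0 : ℝ) * lam ^ (i + 1) ≤ 2 * N0 * lam := by
      have h3 : ∑ i ∈ Finset.range L, (N0 : ℝ) * lam ^ (i + 1) =
          N0 * lam * ∑ i ∈ Finset.range L, lam ^ i := by
        rw [Finset.mul_sum]
        exact Finset.sum_congr rfl fun i _ => by ring
      have h4 : ∑ i ∈ Finset.range L, lam ^ i ≤ 2 := by
        have h5 := geom_sum_eq (x := lam) (by linarith) L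
        rw [h5, div_le_iff_of_neg (by linarith)]
        have : 0 ≤ lam ^ L := pow_nonneg hlam0 L
        linarith
      rw [h3]
      have : 0 ≤ (N0 : ℝ) * lam := by positivity
      nlinarith
    linarith
  have := probReal_compl_eq_one_sub (μ := perc D R p q) hmeas
  linarith

/-- The window event -/
def Win (R : Set (V D)) (σ : ℤ) (L : ℕ) (s : ℤ) : Set (Edge D → Bool) := C1 R σ s ∩ C2 R σ L s

theorem prob_Win (hT : ∀ v ∈ R, h0 < ht σ v → ht σ v < h1 → v ∈ T) (hL : 1 ≤ L)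
    (hs0 : h0 + L ≤ s) (hs1 : s + 1 < h1) {N0 : ℕ}
    (hN : ∀ h, (T.filter fun v => ht σ v = h).card ≤ N0)
    (p q : unitInterval) (hp : 4 * N0 * (2 * (D + 1) * (p : ℝ)) ≤ 1) (hN0 : 1 ≤ N0) :
    (perc D R p q).real (Win R σ L s)ᶜ ≤ 1 - (1 - (q : ℝ)) ^ N0 ^ 2 / 2 := by
  have hs0' : h0 < s := by omega
  have d1 := C1_dep (R := R) hT hs0' hs1
  have d2 := C2_dep (R := R) hT hs0 hs1
  have h1' := prob_C1 (R := R) hT hs0' hs1 hN p q
  have h2' := prob_C2 (R := R) hT hs0 hs1 hN p q hp hN0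
  have h3 := DepOn.indep d1 d2 S1_S2 R p q
  have hq : 0 ≤ (1 - (q : ℝ)) ^ N0 ^ 2 := pow_nonneg (by linarith [q.2.2]) _
  have h4 : (1 - (q : ℝ)) ^ N0 ^ 2 / 2 ≤ (perc D R p q).real (Win R σ L s) := by
    rw [Win, h3]
    have := mul_le_mul h1' h2' (by norm_num) measureReal_nonneg
    linarith
  have hm : MeasurableSet (Win R σ L s) := d1.measurable.inter d2.measurable
  rw [probReal_compl_eq_one_sub hm]
  linarith

/-- centres of the windows -/
def ctr (h0 : ℤ) (L w : ℕ) : ℤ := h0 + 4 * L * w + 2 * L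

theorem prob_no_win (hσ : σ = 1 ∨ σ = -1)
    (hT : ∀ v ∈ R, h0 < ht σ v → ht σ v < h1 → v ∈ T) (hL : 1 ≤ L)
    {N0 : ℕ} (hN : ∀ h, (T.filter fun v => ht σ v = h).card ≤ N0)
    (p q : unitInterval) (hp : 4 * N0 * (2 * (D + 1) * (p : ℝ)) ≤ 1) (hN0 : 1 ≤ N0) (K : ℕ)
    (hK : h0 + 4 * L * K ≤ h1) :
    (perc D R p q).real (⋂ w ∈ Finset.range K, (Win R σ L (ctr h0 L w))ᶜ) ≤
      (1 - (1 - (q : ℝ)) ^ N0 ^ 2 / 2) ^ K := by
  classical
  have hq0 : 0 ≤ 1 - (1 - (q : ℝ)) ^ N0 ^ 2 / 2 := by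
    have : (1 - (q : ℝ)) ^ N0 ^ 2 ≤ 1 := pow_le_one₀ (by linarith [q.2.2]) (by linarith [q.2.1])
    linarith
  -- dependence sets
  set S : ℕ → Finset (Edge D) := fun w =>
    S1 R T σ (ctr h0 L w) ∪ S2 R T σ L (ctr h0 L w) with hS
  have hSh : ∀ w, ∀ e ∈ S w, ∀ z ∈ (e : Sym2 (V D)),
      h0 + 4 * L * w ≤ ht σ z ∧ ht σ z < h0 + 4 * L * (w + 1) := by
    intro w e he z hz
    rw [hS, Finset.mem_union] at he
    have hctr : ctr h0 L w = h0 + 4 * L * w + 2 * L := rfl
    have hexp : h0 + 4 * (L : ℤ) * (w + 1) = h0 + 4 * L * w + 4 * L := by ring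
    rcases he with he | he
    · have := S1_height he z hz
      rw [hexp]
      omega
    · have := S2_height hσ he z hz
      rw [hexp]
      omega
  have hdep : ∀ w < K, DepOn (S w) (Win R σ L (ctr h0 L w))ᶜ := by
    intro w hw
    have hctr : ctr h0 L w = h0 + 4 * L * w + 2 * L := rfl
    have h2 : (4 : ℤ) * L * w + 4 * L ≤ 4 * L * K := by
      have : (w : ℤ) + 1 ≤ K := by exact_mod_cast hw
      nlinarith [show (1 : ℤ) ≤ L by exact_mod_cast hL]
    have h3 : (0 : ℤ) ≤ 4 * L * w := by positivity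
    refine DepOn.compl (DepOn.inter ?_ ?_)
    · exact (C1_dep (R := R) hT (by rw [hctr]; omega) (by rw [hctr]; omega)).mono
        Finset.subset_union_left
    · exact (C2_dep (R := R) hT (by rw [hctr]; omega) (by rw [hctr]; omega)).mono
        Finset.subset_union_right
  have main : ∀ k ≤ K, DepOn ((Finset.range k).biUnion S)
      (⋂ w ∈ Finset.range k, (Win R σ L (ctr h0 L w))ᶜ) ∧
      (perc D R p q).real (⋂ w ∈ Finset.range k, (Win R σ L (ctr h0 L w))ᶜ) ≤
        (1 - (1 - (q : ℝ)) ^ N0 ^ 2 / 2) ^ k := by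
    intro k
    induction k with
    | zero =>
      intro _
      refine ⟨fun ω ω' _ => by simp, ?_⟩
      rw [pow_zero]
      exact measureReal_le_one
    | succ k ih =>
      intro hk
      obtain ⟨i1, i2⟩ := ih (by omega)
      have hset : (⋂ w ∈ Finset.range (k + 1), (Win R σ L (ctr h0 L w))ᶜ) =
          (⋂ w ∈ Finset.range k, (Win R σ L (ctr h0 L w))ᶜ) ∩ (Win R σ L (ctr h0 L k))ᶜ := by
        ext ω
        simp only [Set.mem_iInter, Set.mem_inter_iff, Finset.mem_range]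
        constructor
        · intro h
          exact ⟨fun w hw => h w (by omega), h k (by omega)⟩
        · rintro ⟨h2, h3⟩ w hw
          rcases Nat.lt_succ_iff_lt_or_eq.1 hw with h | rfl
          · exact h2 w h
          · exact h3
      have hd := hdep k (by omega)
      refine ⟨?_, ?_⟩
      · rw [hset]
        refine DepOn.inter (i1.mono ?_) (hd.mono ?_)
        · exact Finset.biUnion_subset_biUnion_of_subset_left _ (Finset.range_mono (Nat.le_succ k))
        · exact Finset.subset_biUnion_of_mem S (Finset.mem_range.2 (Nat.lt_succ_self k))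
      · rw [hset, DepOn.indep i1 hd ?_ R p q, pow_succ]
        · refine mul_le_mul i2 ?_ measureReal_nonneg (pow_nonneg hq0 _)
          have hctr : ctr h0 L k = h0 + 4 * L * k + 2 * L := rfl
          have h2 : (4 : ℤ) * L * k + 4 * L ≤ 4 * L * K := by
            have : (k : ℤ) + 1 ≤ K := by exact_mod_cast hk
            nlinarith [show (1 : ℤ) ≤ L by exact_mod_cast hL]
          have h3 : (0 : ℤ) ≤ 4 * L * k := by positivity
          exact prob_Win hT hL (by rw [hctr]; omega) (by rw [hctr]; omega) hN p q hp hN0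
        · rw [Finset.disjoint_left]
          intro e h2 h3
          rw [Finset.mem_biUnion] at h2
          obtain ⟨w, hw, h2⟩ := h2
          have hw' := Finset.mem_range.1 hw
          obtain ⟨e, he⟩ := e
          induction e using Sym2.ind with
          | _ x y =>
            have e1 := hSh w _ h2 x (Sym2.mem_mk_left x y)
            have e2 := hSh k _ h3 x (Sym2.mem_mk_left x y)
            have e3 : (4 : ℤ) * L * (w + 1) ≤ 4 * L * k := by
              have : (w : ℤ) + 1 ≤ k := by exact_mod_cast hw'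
              nlinarith [show (1 : ℤ) ≤ L by exact_mod_cast hL]
            omega
  exact (main K le_rfl).2

/-- The probability that no gap is blocked. -/
theorem prob_not_blocked (hσ : σ = 1 ∨ σ = -1)
    (hT : ∀ v ∈ R, h0 < ht σ v → ht σ v < h1 → v ∈ T) (hL : 1 ≤ L)
    {N0 : ℕ} (hN : ∀ h, (T.filter fun v => ht σ v = h).card ≤ N0)
    (p q : unitInterval) (hp : 4 * N0 * (2 * (D + 1) * (p : ℝ)) ≤ 1) (hN0 : 1 ≤ N0) (K : ℕ)
    (hK : h0 + 4 * L * K ≤ h1) (Q : ℕ → Finset (V D)) (b : ℕ → ℤ)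
    (hQ : ∀ w ∈ R, h1 ≤ ht σ w → ∃ i, w ∈ Q i ∧ b i ≤ ht σ w) :
    perc D R p q {ω | ¬ ∃ s, h0 < s ∧ s < h1 ∧ Blocked R σ ω s} ≤
      ENNReal.ofReal ((1 - (1 - (q : ℝ)) ^ N0 ^ 2 / 2) ^ K) +
      T.card * ENNReal.ofReal (2 * (D + 1) * p) ^ L +
      ∑' i, (Q i).card * ENNReal.ofReal (2 * (D + 1) * p) ^ (b i - h0).toNat := by
  classical
  have hsub : {ω : Edge D → Bool | ¬ ∃ s, h0 < s ∧ s < h1 ∧ Blocked R σ ω s} ⊆
      (⋂ w ∈ Finset.range K, (Win R σ L (ctr h0 L w))ᶜ) ∪ (⋃ u ∈ T, {ω | Pp R ω u L}) ∪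
      ⋃ i, ⋃ w ∈ Q i, {ω | Pp R ω w (b i - h0).toNat} := by
    intro ω hω
    by_contra hcon
    rw [Set.mem_union, Set.mem_union, not_or, not_or] at hcon
    obtain ⟨⟨h2, h3⟩, h4⟩ := hcon
    simp only [Set.mem_iInter, Set.mem_iUnion, not_forall, not_exists] at h2 h3 h4
    obtain ⟨w, hw, hwin⟩ := h2
    rw [Set.notMem_compl_iff] at hwin
    have hw' := Finset.mem_range.1 hw
    have hctr : ctr h0 L w = h0 + 4 * L * w + 2 * L := rfl
    have e2 : (4 : ℤ) * L * w + 4 * L ≤ 4 * L * K := by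
      have : (w : ℤ) + 1 ≤ K := by exact_mod_cast hw'
      nlinarith [show (1 : ℤ) ≤ L by exact_mod_cast hL]
    have e3 : (0 : ℤ) ≤ 4 * L * w := by positivity
    refine hω ⟨ctr h0 L w, by rw [hctr]; omega, by rw [hctr]; omega, ?_⟩
    refine blocked_of (h0 := h0) (h1 := h1) (L := L) hσ (by rw [hctr]; omega) (by rw [hctr]; omega)
      hwin.1 hwin.2 ?_ ?_
    · intro u hu hu0 hu1
      exact h3 u (hT u hu hu0 hu1)
    · intro v hv hv1 hP
      obtain ⟨i, hi, hib⟩ := hQ v hv hv1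
      exact h4 i v hi (Pp_mono hP (by omega))
  refine (measure_mono hsub).trans ((measure_union_le _ _).trans (add_le_add
    ((measure_union_le _ _).trans (add_le_add ?_ ?_)) ?_))
  · have := prob_no_win hσ hT hL hN p q hp hN0 K hK
    rw [Measure.real] at this
    exact (ENNReal.le_ofReal_iff_toReal_le (measure_ne_top _ _) (le_trans ENNReal.toReal_nonneg
      this)).2 this
  · refine (measure_biUnion_finset_le _ _).trans ?_
    calc ∑ u ∈ T, perc D R p q {ω | Pp R ω u L}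
        ≤ ∑ _u ∈ T, ENNReal.ofReal (2 * (D + 1) * p) ^ L :=
          Finset.sum_le_sum fun u _ => prob_Pp R p q u L
      _ = _ := by rw [Finset.sum_const, nsmul_eq_mul]
  · refine (measure_iUnion_le _).trans (ENNReal.tsum_le_tsum fun i => ?_)
    refine (measure_biUnion_finset_le _ _).trans ?_
    calc ∑ u ∈ Q i, perc D R p q {ω | Pp R ω u (b i - h0).toNat}
        ≤ ∑ _u ∈ Q i, ENNReal.ofReal (2 * (D + 1) * p) ^ (b i - h0).toNat :=
          Finset.sum_le_sum fun u _ => prob_Pp R p q u _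
      _ = _ := by rw [Finset.sum_const, nsmul_eq_mul]

end

end Q292.Stack
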