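import Mathlib
import Pool.Agent.Q292.Stack.Window

/-!
# Geometry of the stack of boxes
-/

namespace Q292.Stack

open MeasureTheory ProbabilityTheory SimpleGraph
open scoped ENNReal

variable {D : ℕ}

theorem Zp_succ (Y : ℕ → ℕ) (n : ℕ) : Zp Y (n + 1) = Zp Y n + Y n + Y (n + 1) := by
  cases n with
  | zero => simp [Zp]
  | succ n =>
    rw [Zp, Zp, Finset.sum_range_succ]
    ring

/-- lower end of the `n`-th box -/
def lo (Y : ℕ → ℕ) (n : ℕ) : ℤ := Zp Y n - Y n

theorem lo_succ (Y : ℕ → ℕ) (n : ℕ) : lo Y (n + 1) = lo Y n + 2 * Y n := by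
  rw [lo, lo, Zp_succ]
  ring

theorem lo_mono (Y : ℕ → ℕ) : Monotone (lo Y) := by
  refine monotone_nat_of_le_succ fun n => ?_
  rw [lo_succ]
  have : (0 : ℤ) ≤ Y n := by positivity
  omega

theorem lo_add (Y : ℕ → ℕ) (n k : ℕ) :
    lo Y (n + k) = lo Y n + 2 * ∑ i ∈ Finset.range k, (Y (n + i) : ℤ) := by
  induction k with
  | zero => simp
  | succ k ih =>
    rw [← add_assoc, lo_succ, ih, Finset.sum_range_succ]
    ring

/-- the sizes seen in the direction `σ` -/
def sd (X : ℤ → ℕ) (σ : ℤ) : ℕ → ℕ := fun i => X (σ * i)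

theorem Z_side (X : ℤ → ℕ) {σ : ℤ} (hσ : σ = 1 ∨ σ = -1) (n : ℕ) :
    Z X (σ * n) = σ * Zp (sd X σ) n := by
  rcases hσ with rfl | rfl
  · rw [Z, if_pos (by positivity)]
    have h2 : (fun i : ℕ => X (i : ℤ)) = sd X 1 := by
      funext i
      simp [sd]
    rw [h2]
    simp
  · cases n with
    | zero => simp [Z, Zp]
    | succ n =>
      rw [Z, if_neg (by push_cast; omega)]
      have h1 : (-(-1 * ((n + 1 : ℕ) : ℤ))).toNat = n + 1 := by
        push_cast
        omega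
      rw [h1]
      have h2 : (fun i : ℕ => X (-(i : ℤ))) = sd X (-1) := by
        funext i
        simp [sd]
      rw [h2]
      ring

/-- membership in a box in terms of signed heights -/
theorem mem_box_side (X : ℤ → ℕ) {σ : ℤ} (hσ : σ = 1 ∨ σ = -1) (n : ℕ) (v : V D) :
    v ∈ box D (Z X (σ * n)) (X (σ * n)) ↔ ∑ i, |v.1 i| ≤ sd X σ n ∧
      lo (sd X σ) n ≤ ht σ v ∧ ht σ v ≤ lo (sd X σ) (n + 1) := by
  rw [box, Set.mem_ofPred_eq, Z_side X hσ, lo_succ, lo]
  have h1 : |v.2 - σ * Zp (sd X σ) n| = |ht σ v - Zp (sd X σ) n| := by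
    rcases hσ with rfl | rfl
    · simp [ht]
    · rw [ht, abs_sub_comm]
      rw [show -1 * Zp (sd X (-1)) n - v.2 = -1 * v.2 - Zp (sd X (-1)) n by ring]
  rw [h1, abs_le]
  have h2 : sd X σ n = X (σ * n) := rfl
  rw [h2]
  constructor
  · rintro ⟨h3, h4, h5⟩
    exact ⟨h3, by omega, by omega⟩
  · rintro ⟨h3, h4, h5⟩
    exact ⟨h3, by omega, by omega⟩

theorem exists_side {σ : ℤ} (hσ : σ = 1 ∨ σ = -1) (n : ℤ) :
    (∃ m : ℕ, n = σ * m) ∨ ∃ m : ℕ, 1 ≤ m ∧ n = (-σ) * m := by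
  rcases hσ with rfl | rfl
  · rcases le_or_gt 0 n with h | h
    · exact Or.inl ⟨n.toNat, by omega⟩
    · exact Or.inr ⟨(-n).toNat, by omega, by omega⟩
  · rcases le_or_gt n 0 with h | h
    · exact Or.inl ⟨(-n).toNat, by omega⟩
    · exact Or.inr ⟨n.toNat, by omega, by omega⟩

theorem ht_neg (σ : ℤ) (v : V D) : ht (-σ) v = -ht σ v := by
  rw [ht, ht]
  ring

/-- every vertex of the region is in a box on the side `σ` or has small signed height -/
theorem region_side (X : ℤ → ℕ) {σ : ℤ} (hσ : σ = 1 ∨ σ = -1) {v : V D} (hv : v ∈ region D X) :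
    (∃ n : ℕ, v ∈ box D (Z X (σ * n)) (X (σ * n))) ∨ ht σ v ≤ lo (sd X σ) 1 := by
  rw [region, Set.mem_iUnion] at hv
  obtain ⟨n, hn⟩ := hv
  rcases exists_side hσ n with ⟨m, rfl⟩ | ⟨m, hm, rfl⟩
  · exact Or.inl ⟨m, hn⟩
  · right
    have hσ' : -σ = 1 ∨ -σ = -1 := by
      rcases hσ with rfl | rfl
      · right; rfl
      · left; rfl
    rw [mem_box_side X hσ', ht_neg] at hn
    have h1 := lo_mono (sd X (-σ)) hm
    have h2 : lo (sd X (-σ)) 1 = X 0 := by simp [lo, Zp, sd]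
    have h3 : lo (sd X σ) 1 = X 0 := by simp [lo, Zp, sd]
    rw [h3]
    have : (0 : ℤ) ≤ X 0 := by positivity
    omega

/-- an obstacle: `M` unit boxes followed by boxes of controlled size -/
def Obst (Y : ℕ → ℕ) (j M : ℕ) : Prop :=
  (∀ k < M, Y (j + k) = 1) ∧ ∀ i, Y (j + M + i) ≤ 2 ^ (M + ∑ k ∈ Finset.range i, Y (j + M + k))

section
variable (X : ℤ → ℕ) (σ : ℤ) (j M : ℕ)

/-- the tube -/
noncomputable def tube (D : ℕ) (h0 h1 : ℤ) (σ : ℤ) : Finset (V D) :=
  (Fintype.piFinset fun _ : Fin D => Finset.Icc (-1 : ℤ) 1) ×ˢ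
    ((Finset.Ioo h0 h1).image fun t => σ * t)

/-- finite box -/
noncomputable def boxF (D : ℕ) (X : ℤ → ℕ) (n : ℤ) : Finset (V D) :=
  (Fintype.piFinset fun _ : Fin D => Finset.Icc (-(X n : ℤ)) (X n)) ×ˢ
    Finset.Icc (Z X n - X n) (Z X n + X n)

end

theorem coord_le {v : V D} {r : ℤ} (h : ∑ i, |v.1 i| ≤ r) (i : Fin D) : |v.1 i| ≤ r :=
  (Finset.single_le_sum (f := fun i => |v.1 i|) (fun _ _ => abs_nonneg _)
    (Finset.mem_univ i)).trans h

theorem mem_boxF {X : ℤ → ℕ} {n : ℤ} {v : V D} (h : v ∈ box D (Z X n) (X n)) : v ∈ boxF D X n := by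
  have h' : ∑ i, |v.1 i| ≤ (X n : ℤ) ∧ |v.2 - Z X n| ≤ X n := h
  rw [boxF, Finset.mem_product, Fintype.mem_piFinset]
  refine ⟨fun i => ?_, ?_⟩
  · rw [Finset.mem_Icc, ← abs_le]
    exact coord_le h'.1 i
  · rw [Finset.mem_Icc]
    have := abs_le.1 h'.2
    omega

theorem card_boxF (X : ℤ → ℕ) (n : ℤ) : (boxF D X n).card = (2 * X n + 1) ^ (D + 1) := by
  rw [boxF, Finset.card_product, Fintype.card_piFinset, Finset.prod_const, Finset.card_univ,
    Fintype.card_fin, Int.card_Icc, Int.card_Icc, pow_succ]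
  congr 1
  · congr 1
    omega
  · omega

theorem card_tube (D : ℕ) (h0 h1 : ℤ) (σ : ℤ) : (tube D h0 h1 σ).card ≤ 3 ^ D * (h1 - h0).toNat := by
  rw [tube, Finset.card_product, Fintype.card_piFinset, Finset.prod_const, Finset.card_univ,
    Fintype.card_fin, Int.card_Icc]
  have h2 : ((Finset.Ioo h0 h1).image fun t => σ * t).card ≤ (h1 - h0).toNat := by
    refine Finset.card_image_le.trans ?_
    rw [Int.card_Ioo]
    omega
  exact Nat.mul_le_mul (by rw [show ((1 : ℤ) + 1 - -1).toNat = 3 from rfl]) h2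

theorem card_level {σ : ℤ} (hσ : σ = 1 ∨ σ = -1) (h0 h1 h : ℤ) :
    ((tube D h0 h1 σ).filter fun v => ht σ v = h).card ≤ 3 ^ D := by
  have h3 : (Fintype.piFinset fun _ : Fin D => Finset.Icc (-1 : ℤ) 1).card = 3 ^ D := by
    rw [Fintype.card_piFinset, Finset.prod_const, Finset.card_univ, Fintype.card_fin,
      Int.card_Icc]
    rfl
  rw [← h3]
  refine Finset.card_le_card_of_injOn (fun v => v.1) ?_ ?_
  · intro v hv
    rw [Finset.mem_coe, Finset.mem_filter, tube, Finset.mem_product] at hv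
    exact hv.1.1
  · intro v hv w hw hvw
    rw [Finset.mem_coe, Finset.mem_filter] at hv hw
    refine Prod.ext hvw ?_
    have h4 := hv.2
    have h5 := hw.2
    rcases hσ with rfl | rfl
    · simp only [ht] at h4 h5
      omega
    · simp only [ht] at h4 h5
      omega

theorem mem_tube {X : ℤ → ℕ} {σ : ℤ} (hσ : σ = 1 ∨ σ = -1) {j M : ℕ} (hj : 1 ≤ j)
    (hO : Obst (sd X σ) j M) {v : V D} (hv : v ∈ region D X) (h0 : lo (sd X σ) j < ht σ v)
    (h1 : ht σ v < lo (sd X σ) (j + M)) :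
    v ∈ tube D (lo (sd X σ) j) (lo (sd X σ) (j + M)) σ := by
  have hnorm : ∑ i, |v.1 i| ≤ 1 := by
    rcases region_side X hσ hv with ⟨n, hn⟩ | h
    · rw [mem_box_side X hσ] at hn
      obtain ⟨h2, h3, h4⟩ := hn
      have h5 : j ≤ n := by
        by_contra hcon
        have := lo_mono (sd X σ) (show n + 1 ≤ j by omega)
        omega
      have h6 : n < j + M := by
        by_contra hcon
        have := lo_mono (sd X σ) (show j + M ≤ n by omega)
        omega
      have h7 := hO.1 (n - j) (by omega)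
      rw [show j + (n - j) = n by omega] at h7
      rw [h7] at h2
      exact_mod_cast h2
    · have := lo_mono (sd X σ) hj
      omega
  rw [tube, Finset.mem_product, Fintype.mem_piFinset, Finset.mem_image]
  refine ⟨fun i => ?_, ht σ v, Finset.mem_Ioo.2 ⟨h0, h1⟩, ?_⟩
  · rw [Finset.mem_Icc, ← abs_le]
    exact coord_le hnorm i
  · rcases hσ with rfl | rfl <;> simp [ht]

theorem mem_upper {X : ℤ → ℕ} (hX : ∀ n, 1 ≤ X n) {σ : ℤ} (hσ : σ = 1 ∨ σ = -1) {j M : ℕ}
    (hj : 1 ≤ j) (hM : 1 ≤ M) (hO : Obst (sd X σ) j M) {w : V D} (hw : w ∈ region D X)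
    (h1 : lo (sd X σ) (j + M) ≤ ht σ w) :
    ∃ i : ℕ, w ∈ boxF D X (σ * ((j + M + i : ℕ) : ℤ)) ∧ lo (sd X σ) (j + M + i) ≤ ht σ w := by
  have hstep : ∀ m, lo (sd X σ) m < lo (sd X σ) (m + 1) := by
    intro m
    rw [lo_succ]
    have := hX (σ * m)
    have h2 : sd X σ m = X (σ * m) := rfl
    rw [h2]
    omega
  rcases region_side X hσ hw with ⟨n, hn⟩ | h
  · by_cases hnj : j + M ≤ n
    · refine ⟨n - (j + M), ?_, ?_⟩
      · rw [show j + M + (n - (j + M)) = n by omega]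
        exact mem_boxF hn
      · rw [show j + M + (n - (j + M)) = n by omega]
        rw [mem_box_side X hσ] at hn
        exact hn.2.1
    · -- the vertex is on the top face of the last unit box
      rw [mem_box_side X hσ] at hn
      obtain ⟨h2, h3, h4⟩ := hn
      have h5 : n + 1 = j + M := by
        by_contra hcon
        have e1 := lo_mono (sd X σ) (show n + 1 + 1 ≤ j + M by omega)
        have e2 := hstep (n + 1)
        omega
      have h6 := hO.1 (M - 1) (by omega)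
      rw [show j + (M - 1) = n by omega] at h6
      rw [h6] at h2
      refine ⟨0, ?_, by rw [add_zero]; exact h1⟩
      refine mem_boxF ?_
      rw [mem_box_side X hσ, add_zero]
      refine ⟨?_, h1, ?_⟩
      · have h7 : 1 ≤ sd X σ (j + M) := hX _
        exact h2.trans (by exact_mod_cast h7)
      · rw [← h5]
        exact h4.trans (hstep _).le
  · have e1 := lo_mono (sd X σ) (show 1 + 1 ≤ j + M by omega)
    have e2 := hstep 1
    omega

/-- the error -/
noncomputable def err (D : ℕ) (q : unitInterval) (L : ℕ) : ℝ :=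
  (1 - (1 - (q : ℝ)) ^ ((3 : ℕ) ^ D) ^ 2 / 2) ^ L + 3 ^ D * (4 * L ^ 2) * (1 / 4) ^ L +
    3 ^ (D + 1) * 2 * (1 / 2) ^ (2 * L ^ 2)

/-- The probability of not being blocked at an obstacle. -/
theorem side_bound {X : ℤ → ℕ} (hX : ∀ n, 1 ≤ X n) {σ : ℤ} (hσ : σ = 1 ∨ σ = -1) {j L : ℕ}
    (hj : 1 ≤ j) (hL : 1 ≤ L) (hO : Obst (sd X σ) j (2 * L ^ 2)) (p q : unitInterval)
    (hp : 4 * 3 ^ D * (2 * (D + 1) * (p : ℝ)) ≤ 1) :
    perc D (region D X) p q {ω | ¬ ∃ s, lo (sd X σ) j < s ∧ s < lo (sd X σ) (j + 2 * L ^ 2) ∧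
      Blocked (region D X) σ ω s} ≤ ENNReal.ofReal (err D q L) := by
  classical
  set M : ℕ := 2 * L ^ 2 with hM
  have hM1 : 1 ≤ M := by
    have : 1 ≤ L ^ 2 := Nat.one_le_pow _ _ hL
    omega
  set Y := sd X σ with hY
  set lam : ℝ := 2 * (D + 1) * p with hlam
  have hlam0 : 0 ≤ lam := mul_nonneg (by positivity) p.2.1
  have h3D : (1 : ℝ) ≤ 3 ^ D := one_le_pow₀ (by norm_num)
  have hlam1 : lam ≤ 1 / 4 := by
    have : 4 * 1 * lam ≤ 4 * 3 ^ D * lam := by gcongr
    linarith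
  have hdiff : lo Y (j + M) = lo Y j + 2 * M := by
    rw [lo_add]
    congr 2
    rw [Finset.sum_congr rfl (g := fun _ => (1 : ℤ)) (fun i hi => by
      rw [hO.1 i (Finset.mem_range.1 hi)]
      rfl)]
    simp
  have hmain := prob_not_blocked (R := region D X) (T := tube D (lo Y j) (lo Y (j + M)) σ)
    (h0 := lo Y j) (h1 := lo Y (j + M)) (L := L) hσ
    (fun v hv h0 h1 => mem_tube hσ hj hO hv h0 h1) hL (N0 := 3 ^ D)
    (fun h => card_level hσ _ _ h) p q (by push_cast; exact hp) (Nat.one_le_pow _ _ (by norm_num)) L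
    (by rw [hdiff, hM]; push_cast; nlinarith)
    (fun i => boxF D X (σ * ((j + M + i : ℕ) : ℤ))) (fun i => lo Y (j + M + i))
    (fun w hw h1 => mem_upper hX hσ hj hM1 hO hw h1)
  refine hmain.trans ?_
  -- first term
  have hq0 : (0 : ℝ) ≤ 1 - (1 - (q : ℝ)) ^ ((3 : ℕ) ^ D) ^ 2 / 2 := by
    have : (1 - (q : ℝ)) ^ ((3 : ℕ) ^ D) ^ 2 ≤ 1 :=
      pow_le_one₀ (by linarith [q.2.2]) (by linarith [q.2.1])
    linarith
  -- second term
  have t2 : ((tube D (lo Y j) (lo Y (j + M)) σ).card : ℝ≥0∞) * ENNReal.ofReal lam ^ L ≤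
      ENNReal.ofReal (3 ^ D * (4 * L ^ 2) * (1 / 4) ^ L) := by
    have e1 : ((tube D (lo Y j) (lo Y (j + M)) σ).card : ℝ) ≤ 3 ^ D * (4 * L ^ 2) := by
      have := card_tube D (lo Y j) (lo Y (j + M)) σ
      have hd2 : lo Y j + 2 * (M : ℤ) - lo Y j = ((4 * L ^ 2 : ℕ) : ℤ) := by
        rw [hM]
        push_cast
        ring
      rw [hdiff, hd2, Int.toNat_natCast] at this
      rw [hdiff]
      exact_mod_cast this
    rw [← ENNReal.ofReal_pow hlam0, ← ENNReal.ofReal_natCast, ← ENNReal.ofReal_mul (by positivity)]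
    apply ENNReal.ofReal_le_ofReal
    gcongr
  -- third term
  have t3 : ∑' i : ℕ, ((boxF D X (σ * ((j + M + i : ℕ) : ℤ))).card : ℝ≥0∞) *
      ENNReal.ofReal lam ^ (lo Y (j + M + i) - lo Y j).toNat ≤
      ENNReal.ofReal (3 ^ (D + 1) * 2 * (1 / 2) ^ M) := by
    have hterm : ∀ i : ℕ, ((boxF D X (σ * ((j + M + i : ℕ) : ℤ))).card : ℝ≥0∞) *
        ENNReal.ofReal lam ^ (lo Y (j + M + i) - lo Y j).toNat ≤
        ENNReal.ofReal (3 ^ (D + 1) * (1 / 2) ^ M * (1 / 2) ^ i) := by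
      intro i
      set S : ℕ := ∑ k ∈ Finset.range i, Y (j + M + k) with hS
      have hSi : i ≤ S := by
        rw [hS]
        calc i = ∑ _k ∈ Finset.range i, 1 := by simp
          _ ≤ _ := Finset.sum_le_sum fun k _ => hX _
      have hexp : (lo Y (j + M + i) - lo Y j).toNat = 2 * (M + S) := by
        have hd3 : lo Y (j + M + i) - lo Y j = ((2 * (M + S) : ℕ) : ℤ) := by
          rw [lo_add, hdiff, hS]
          push_cast
          ring
        rw [hd3, Int.toNat_natCast]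
      have hsize : X (σ * ((j + M + i : ℕ) : ℤ)) ≤ 2 ^ (M + S) := hO.2 i
      have hsize1 := hX (σ * ((j + M + i : ℕ) : ℤ))
      rw [hexp, card_boxF, ← ENNReal.ofReal_pow hlam0, ← ENNReal.ofReal_natCast,
        ← ENNReal.ofReal_mul (by positivity)]
      apply ENNReal.ofReal_le_ofReal
      have e1 : (((2 * X (σ * ((j + M + i : ℕ) : ℤ)) + 1) ^ (D + 1) : ℕ) : ℝ) ≤
          (3 * 2 ^ (M + S)) ^ (D + 1) := by
        push_cast
        refine pow_le_pow_left₀ (by positivity) ?_ _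
        have f1 : (X (σ * ((j + M + i : ℕ) : ℤ)) : ℝ) ≤ 2 ^ (M + S) := by exact_mod_cast hsize
        have f2 : (1 : ℝ) ≤ (X (σ * ((j + M + i : ℕ) : ℤ)) : ℝ) := by exact_mod_cast hsize1
        push_cast at f1 f2
        linarith
      have e2 : lam ^ (2 * (M + S)) = (lam ^ 2) ^ (M + S) := by rw [pow_mul]
      have e3 : (2 : ℝ) ^ (D + 1) * lam ^ 2 ≤ 1 / 2 := by
        have g1 : lam ≤ 1 / (4 * 3 ^ D) := by
          rw [le_div_iff₀ (by positivity)]
          linarith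
        have g2 : lam ^ 2 ≤ (1 / (4 * 3 ^ D)) ^ 2 := pow_le_pow_left₀ hlam0 g1 2
        have g3 : (2 : ℝ) ^ (D + 1) * (1 / (4 * 3 ^ D)) ^ 2 ≤ 1 / 2 := by
          have g4 : (2 : ℝ) ^ D ≤ 3 ^ D := pow_le_pow_left₀ (by norm_num) (by norm_num) D
          have g5 : (0 : ℝ) < 3 ^ D := by positivity
          rw [div_pow, one_pow, mul_one_div, div_le_div_iff₀ (by positivity) (by norm_num),
            pow_succ]
          nlinarith
        exact (mul_le_mul_of_nonneg_left g2 (by positivity)).trans g3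
      have hkey : ∀ (x : ℝ) (k : ℕ), (3 * 2 ^ k) ^ (D + 1) * (x ^ 2) ^ k =
          3 ^ (D + 1) * (2 ^ (D + 1) * x ^ 2) ^ k := by
        intro x k
        rw [mul_pow 3 (2 ^ k), mul_pow (2 ^ (D + 1)) (x ^ 2), ← pow_mul 2 k, ← pow_mul 2 (D + 1),
          mul_comm k (D + 1)]
        ring
      calc (((2 * X (σ * ((j + M + i : ℕ) : ℤ)) + 1) ^ (D + 1) : ℕ) : ℝ) * lam ^ (2 * (M + S))
          ≤ (3 * 2 ^ (M + S)) ^ (D + 1) * lam ^ (2 * (M + S)) := by gcongr
        _ = 3 ^ (D + 1) * (2 ^ (D + 1) * lam ^ 2) ^ (M + S) := by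
            rw [e2]
            exact hkey lam (M + S)
        _ ≤ 3 ^ (D + 1) * (1 / 2) ^ (M + S) := by gcongr
        _ ≤ 3 ^ (D + 1) * (1 / 2) ^ (M + i) := by
            refine mul_le_mul_of_nonneg_left ?_ (by positivity)
            exact pow_le_pow_of_le_one (by norm_num) (by norm_num) (by omega)
        _ = _ := by rw [pow_add]; ring
    refine (ENNReal.tsum_le_tsum hterm).trans ?_
    rw [← ENNReal.ofReal_tsum_of_nonneg (fun i => by positivity)
      ((summable_geometric_of_lt_one (by norm_num) (by norm_num)).mul_left _), tsum_mul_left,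
      tsum_geometric_of_lt_one (by norm_num) (by norm_num)]
    apply ENNReal.ofReal_le_ofReal
    apply le_of_eq
    ring
  rw [err, ENNReal.ofReal_add (by positivity) (by positivity),
    ENNReal.ofReal_add (by positivity) (by positivity)]
  exact add_le_add (add_le_add le_rfl t2) t3

end Q292.Stack
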