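import Mathlib
import Pool.Agent.Q292.Stack.Geo

/-!
# No percolation in the presence of obstacles; a lower bound on the critical probability
-/

namespace Q292.Stack

open MeasureTheory ProbabilityTheory SimpleGraph Filter Topology
open scoped ENNReal

variable {D : ℕ}

theorem zero_mem_region {X : ℤ → ℕ} : (0 : V D) ∈ region D X := by
  rw [region, Set.mem_iUnion]
  refine ⟨0, ?_⟩
  change ∑ i, |(0 : V D).1 i| ≤ (X 0 : ℤ) ∧ |(0 : V D).2 - Z X 0| ≤ X 0
  have : Z X 0 = 0 := by simp [Z, Zp]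
  rw [this]
  simp

theorem lo_one (X : ℤ → ℕ) (σ : ℤ) : lo (sd X σ) 1 = X 0 := by simp [lo, Zp, sd]

theorem zero_event (R : Set (V D)) (p q : unitInterval) (hp : 2 * (D + 1) * (p : ℝ) < 1)
    (A : Set (Edge D → Bool)) (F : Finset (V D)) (h : ∀ ω ∈ A, ∀ n, ∃ x ∈ F, Pp R ω x n) :
    perc D R p q A = 0 := by
  classical
  set lam : ℝ≥0∞ := ENNReal.ofReal (2 * (D + 1) * p) with hlam
  have hlam1 : lam < 1 := by
    rw [hlam, ← ENNReal.ofReal_one]
    exact (ENNReal.ofReal_lt_ofReal_iff one_pos).2 hp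
  have hb : ∀ n : ℕ, perc D R p q A ≤ F.card * lam ^ n := by
    intro n
    have hsub : A ⊆ ⋃ x ∈ F, {ω | Pp R ω x n} := by
      intro ω hω
      obtain ⟨x, hx, hP⟩ := h ω hω n
      simp only [Set.mem_iUnion]
      exact ⟨x, hx, hP⟩
    refine (measure_mono hsub).trans ((measure_biUnion_finset_le _ _).trans ?_)
    calc ∑ u ∈ F, perc D R p q {ω | Pp R ω u n} ≤ ∑ _u ∈ F, lam ^ n :=
          Finset.sum_le_sum fun u _ => prob_Pp R p q u n
      _ = _ := by rw [Finset.sum_const, nsmul_eq_mul]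
  have ht : Tendsto (fun n : ℕ => (F.card : ℝ≥0∞) * lam ^ n) atTop (𝓝 (F.card * 0)) :=
    ENNReal.Tendsto.const_mul (ENNReal.tendsto_pow_atTop_nhds_zero_of_lt_one hlam1)
      (Or.inr (ENNReal.natCast_ne_top _))
  rw [mul_zero] at ht
  exact le_antisymm (ge_of_tendsto' ht hb) zero_le

/-- homogeneous percolation -/
theorem theta_hom (p : unitInterval) (hp : 2 * (D + 1) * (p : ℝ) < 1) :
    theta D ∅ p p = 0 := by
  classical
  refine zero_event ∅ p p hp _ {0} fun ω hω n => ⟨0, Finset.mem_singleton_self 0, ?_⟩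
  have hinf : (cluster ω).Infinite := hω
  obtain ⟨v, hv, hvn⟩ := hinf.exists_notMem_finset (Bl n 0)
  obtain ⟨γ⟩ : (openG ω).Reachable 0 v := hv
  refine Pp_of_path γ.bypass γ.bypass_isPath ?_ ?_
  · intro e _ hin
    induction e using Sym2.ind with
    | _ x y => exact (hin x (Sym2.mem_mk_left x y)).elim
  · by_contra hcon
    push Not at hcon
    exact hvn (mem_Bl γ.bypass hcon.le)

/-- a lower bound on the critical probability -/
theorem le_pc {t : ℝ} (ht0 : 0 ≤ t) (ht : 2 * (D + 1) * t < 1) : t ≤ pc D := by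
  refine le_csSup ?_ ?_
  · refine ⟨1, ?_⟩
    rintro s ⟨p, rfl, -⟩
    exact p.2.2
  · have ht1 : t ≤ 1 := by
      have : (0 : ℝ) ≤ D := by positivity
      nlinarith
    exact ⟨⟨t, ht0, ht1⟩, rfl, theta_hom ⟨t, ht0, ht1⟩ ht⟩

theorem err_tendsto (D : ℕ) (q : unitInterval) (hq : (q : ℝ) < 1) :
    Tendsto (err D q) atTop (𝓝 0) := by
  have hκ : 0 < (1 - (q : ℝ)) ^ ((3 : ℕ) ^ D) ^ 2 := pow_pos (by linarith) _
  have hκ1 : (1 - (q : ℝ)) ^ ((3 : ℕ) ^ D) ^ 2 ≤ 1 :=
    pow_le_one₀ (by linarith [q.2.2]) (by linarith [q.2.1])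
  have h1 : Tendsto (fun L : ℕ => (1 - (1 - (q : ℝ)) ^ ((3 : ℕ) ^ D) ^ 2 / 2) ^ L) atTop (𝓝 0) :=
    tendsto_pow_atTop_nhds_zero_of_lt_one (by linarith) (by linarith)
  have h2 : Tendsto (fun L : ℕ => (3 : ℝ) ^ D * (4 * L ^ 2) * (1 / 4) ^ L) atTop (𝓝 0) := by
    have := (tendsto_pow_const_mul_const_pow_of_abs_lt_one 2
      (show |(1 / 4 : ℝ)| < 1 by rw [abs_of_pos] <;> norm_num)).const_mul ((3 : ℝ) ^ D * 4)
    rw [mul_zero] at this
    refine this.congr fun L => ?_
    ring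
  have h3 : Tendsto (fun L : ℕ => (3 : ℝ) ^ (D + 1) * 2 * (1 / 2) ^ (2 * L ^ 2)) atTop (𝓝 0) := by
    have h4 : Tendsto (fun L : ℕ => (3 : ℝ) ^ (D + 1) * 2 * (1 / 2) ^ L) atTop
        (𝓝 (3 ^ (D + 1) * 2 * 0)) :=
      (tendsto_pow_atTop_nhds_zero_of_lt_one (by norm_num) (by norm_num)).const_mul _
    rw [mul_zero] at h4
    refine squeeze_zero (fun L => by positivity) (fun L => ?_) h4
    refine mul_le_mul_of_nonneg_left ?_ (by positivity)
    refine pow_le_pow_of_le_one (by norm_num) (by norm_num) ?_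
    nlinarith [Nat.le_self_pow (show (2 : ℕ) ≠ 0 by norm_num) L]
  have h5 := (h1.add h2).add h3
  simp only [add_zero] at h5
  exact h5

/-- No percolation when there are obstacles on both sides. -/
theorem theta_zero {X : ℤ → ℕ} (hX : ∀ n, 1 ≤ X n)
    (hO : ∀ σ : ℤ, (σ = 1 ∨ σ = -1) → ∀ M ≥ 1024, ∃ j ≥ 1, Obst (sd X σ) j M)
    (p q : unitInterval) (hp : 4 * 3 ^ D * (2 * (D + 1) * (p : ℝ)) ≤ 1) (hq : (q : ℝ) < 1) :
    theta D (region D X) p q = 0 := by
  classical
  have h3D : (1 : ℝ) ≤ 3 ^ D := one_le_pow₀ (by norm_num)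
  have hlam0 : 0 ≤ 2 * ((D : ℝ) + 1) * p := mul_nonneg (by positivity) p.2.1
  have hp1 : 2 * (D + 1) * (p : ℝ) < 1 := by
    have : 4 * 1 * (2 * (D + 1) * (p : ℝ)) ≤ 4 * 3 ^ D * (2 * (D + 1) * (p : ℝ)) := by gcongr
    linarith
  have hbound : ∀ L : ℕ, 23 ≤ L → theta D (region D X) p q ≤
      ENNReal.ofReal (err D q L) + ENNReal.ofReal (err D q L) := by
    intro L hL
    have hM : 1024 ≤ 2 * L ^ 2 := by nlinarith
    obtain ⟨j1, hj1, hO1⟩ := hO 1 (Or.inl rfl) _ hM
    obtain ⟨j2, hj2, hO2⟩ := hO (-1) (Or.inr rfl) _ hM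
    have b1 := side_bound (D := D) hX (Or.inl rfl) hj1 (by omega) hO1 p q hp
    have b2 := side_bound (D := D) hX (Or.inr rfl) hj2 (by omega) hO2 p q hp
    set N1 := {ω : Edge D → Bool | ¬ ∃ s, lo (sd X 1) j1 < s ∧
      s < lo (sd X 1) (j1 + 2 * L ^ 2) ∧ Blocked (region D X) 1 ω s} with hN1
    set N2 := {ω : Edge D → Bool | ¬ ∃ s, lo (sd X (-1)) j2 < s ∧
      s < lo (sd X (-1)) (j2 + 2 * L ^ 2) ∧ Blocked (region D X) (-1) ω s} with hN2
    set F : Finset (V D) := (Finset.Icc (-((j2 + 2 * L ^ 2 : ℕ) : ℤ))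
      ((j1 + 2 * L ^ 2 : ℕ) : ℤ)).biUnion (boxF D X) with hF
    have hFmem : ∀ v ∈ region D X, ht 1 v < lo (sd X 1) (j1 + 2 * L ^ 2) →
        ht (-1) v < lo (sd X (-1)) (j2 + 2 * L ^ 2) → v ∈ F := by
      intro v hv h1 h2
      rw [region, Set.mem_iUnion] at hv
      obtain ⟨n, hn⟩ := hv
      rw [hF, Finset.mem_biUnion]
      refine ⟨n, ?_, mem_boxF hn⟩
      rw [Finset.mem_Icc]
      constructor
      · by_contra hcon
        push Not at hcon
        have h3 : n = (-1) * (((-n).toNat : ℕ) : ℤ) := by omega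
        rw [h3, mem_box_side X (Or.inr rfl)] at hn
        have := lo_mono (sd X (-1)) (show j2 + 2 * L ^ 2 ≤ (-n).toNat by omega)
        omega
      · by_contra hcon
        push Not at hcon
        have h3 : n = 1 * ((n.toNat : ℕ) : ℤ) := by omega
        rw [h3, mem_box_side X (Or.inl rfl)] at hn
        have := lo_mono (sd X 1) (show j1 + 2 * L ^ 2 ≤ n.toNat by omega)
        omega
    set A : Set (Edge D → Bool) := {ω | (cluster ω).Infinite ∧
      ∀ v ∈ region D X, (openG ω).Reachable 0 v → v ∈ F} with hA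
    have hA0 : perc D (region D X) p q A = 0 :=
      zero_event (region D X) p q hp1 A F fun ω hω n =>
        long_path F zero_mem_region hω.2 hω.1 n
    have hsub : {ω : Edge D → Bool | (cluster ω).Infinite} ⊆ (N1 ∪ N2) ∪ A := by
      intro ω hω
      by_contra hcon
      rw [Set.mem_union, Set.mem_union, not_or, not_or] at hcon
      obtain ⟨⟨h1, h2⟩, h3⟩ := hcon
      rw [hN1, Set.mem_ofPred_eq, not_not] at h1
      rw [hN2, Set.mem_ofPred_eq, not_not] at h2
      obtain ⟨s1, hs1, hs1', hB1⟩ := h1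
      obtain ⟨s2, hs2, hs2', hB2⟩ := h2
      refine h3 ⟨hω, fun v hv hreach => hFmem v hv ?_ ?_⟩
      · by_contra hc
        have e1 := lo_mono (sd X 1) hj1
        rw [lo_one] at e1
        have e2 : (0 : ℤ) ≤ X 0 := by positivity
        exact hB1 0 zero_mem_region (by simp [ht]; omega) v hv (by omega) hreach
      · by_contra hc
        have e1 := lo_mono (sd X (-1)) hj2
        rw [lo_one] at e1
        have e2 : (0 : ℤ) ≤ X 0 := by positivity
        exact hB2 0 zero_mem_region (by simp [ht]; omega) v hv (by omega) hreach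
    calc theta D (region D X) p q ≤ perc D (region D X) p q ((N1 ∪ N2) ∪ A) := measure_mono hsub
      _ ≤ perc D (region D X) p q (N1 ∪ N2) + perc D (region D X) p q A := measure_union_le _ _
      _ ≤ perc D (region D X) p q N1 + perc D (region D X) p q N2 + 0 := by
          rw [hA0]
          gcongr
          exact measure_union_le _ _
      _ ≤ _ := by
          rw [add_zero]
          exact add_le_add b1 b2
  have ht : Tendsto (fun L : ℕ => ENNReal.ofReal (err D q L) + ENNReal.ofReal (err D q L)) atTop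
      (𝓝 (ENNReal.ofReal 0 + ENNReal.ofReal 0)) :=
    (ENNReal.tendsto_ofReal (err_tendsto D q hq)).add (ENNReal.tendsto_ofReal (err_tendsto D q hq))
  rw [ENNReal.ofReal_zero, add_zero] at ht
  refine le_antisymm (ge_of_tendsto ht ?_) zero_le
  filter_upwards [eventually_ge_atTop 23] with L hL
  exact hbound L hL

end Q292.Stack
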