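import Mathlib
import Pool.Agent.Q292.Stack.Theta

/-!
# The environment
-/

namespace Q292.Stack

open MeasureTheory ProbabilityTheory Filter Topology
open scoped ENNReal

/-- possible sizes -/
def val : ℕ → ℕ
  | 0 => 1
  | k + 1 => 2 ^ 2 ^ k

/-- `P(X = 1) = 1/2`, `P(X = 2^{2^k}) = 2^{-(k+2)}` -/
noncomputable def sizeLaw : Measure ℕ :=
  Measure.sum fun k => ENNReal.ofReal ((1 / 2) ^ (k + 1)) • Measure.dirac (val k)

theorem val_pos (k : ℕ) : 1 ≤ val k := by
  cases k with
  | zero => exact le_rfl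
  | succ k => exact Nat.one_le_two_pow

theorem val_inj : Function.Injective val := by
  intro k l h
  cases k with
  | zero =>
    cases l with
    | zero => rfl
    | succ l =>
      exfalso
      have h1 : (1 : ℕ) = 2 ^ 2 ^ l := h
      have h2 : 2 ^ 1 ≤ 2 ^ 2 ^ l := Nat.pow_le_pow_right (by norm_num) Nat.one_le_two_pow
      omega
  | succ k =>
    cases l with
    | zero =>
      exfalso
      have h1 : 2 ^ 2 ^ k = 1 := h
      have h2 : 2 ^ 1 ≤ 2 ^ 2 ^ k := Nat.pow_le_pow_right (by norm_num) Nat.one_le_two_pow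
      omega
    | succ l =>
      have h1 : 2 ^ 2 ^ k = 2 ^ 2 ^ l := h
      have h2 := Nat.pow_right_injective le_rfl h1
      have h3 := Nat.pow_right_injective le_rfl h2
      rw [h3]

theorem sizeLaw_apply (s : Set ℕ) [DecidablePred (· ∈ s)] :
    sizeLaw s = ∑' k, if val k ∈ s then ENNReal.ofReal ((1 / 2) ^ (k + 1)) else 0 := by
  rw [sizeLaw, Measure.sum_apply _ (MeasurableSet.of_discrete)]
  congr 1
  funext k
  rw [Measure.smul_apply, Measure.dirac_apply' _ MeasurableSet.of_discrete, smul_eq_mul,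
    Set.indicator_apply]
  split_ifs <;> simp

theorem tsum_half : ∑' k : ℕ, ENNReal.ofReal ((1 / 2) ^ (k + 1)) = 1 := by
  rw [← ENNReal.ofReal_tsum_of_nonneg (fun i => by positivity)
    ((summable_nat_add_iff 1).2 (summable_geometric_of_lt_one (by norm_num) (by norm_num)))]
  have : ∑' k : ℕ, (1 / 2 : ℝ) ^ (k + 1) = 1 := by
    simp_rw [pow_succ]
    rw [tsum_mul_right, tsum_geometric_of_lt_one (by norm_num) (by norm_num)]
    norm_num
  rw [this, ENNReal.ofReal_one]

instance : IsProbabilityMeasure sizeLaw := by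
  classical
  refine ⟨?_⟩
  rw [sizeLaw_apply]
  simp only [Set.mem_univ, if_true]
  exact tsum_half

theorem sizeLaw_atom (m : ℕ) : sizeLaw {val m} = ENNReal.ofReal ((1 / 2) ^ (m + 1)) := by
  classical
  rw [sizeLaw_apply, tsum_eq_single m]
  · simp
  · intro k hk
    rw [if_neg]
    intro h
    exact hk (val_inj h)

theorem sizeLaw_zero : sizeLaw {0} = 0 := by
  classical
  rw [sizeLaw_apply, ENNReal.tsum_eq_zero]
  intro k
  rw [if_neg]
  intro h
  have := val_pos k
  rw [Set.mem_singleton_iff] at h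
  omega

theorem sizeLaw_range : sizeLaw (Set.range val)ᶜ = 0 := by
  classical
  rw [sizeLaw_apply, ENNReal.tsum_eq_zero]
  intro k
  rw [if_neg]
  intro h
  exact h ⟨k, rfl⟩

/-- infinite logarithmic moment -/
theorem log_moment : ∫⁻ x, ENNReal.ofReal (Real.log x) ∂sizeLaw = ⊤ := by
  rw [sizeLaw, lintegral_sum_measure]
  have h1 : ∀ k : ℕ, ∫⁻ x, ENNReal.ofReal (Real.log x)
      ∂(ENNReal.ofReal ((1 / 2) ^ (k + 1)) • Measure.dirac (val k)) =
      ENNReal.ofReal ((1 / 2) ^ (k + 1)) * ENNReal.ofReal (Real.log (val k)) := by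
    intro k
    rw [lintegral_smul_measure, lintegral_dirac, smul_eq_mul]
  simp_rw [h1]
  rw [tsum_eq_zero_add' ENNReal.summable]
  have h2 : ∀ k : ℕ, ENNReal.ofReal ((1 / 2) ^ (k + 1 + 1)) *
      ENNReal.ofReal (Real.log (val (k + 1))) = ENNReal.ofReal (Real.log 2 / 4) := by
    intro k
    rw [← ENNReal.ofReal_mul (by positivity)]
    congr 1
    have h3 : ((val (k + 1) : ℕ) : ℝ) = 2 ^ 2 ^ k := by
      rw [val]
      push_cast
      rfl
    rw [h3, Real.log_pow, pow_add, pow_add, one_div, inv_pow]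
    push_cast
    field_simp
    norm_num
  simp_rw [h2]
  rw [ENNReal.tsum_const_eq_top_of_ne_zero]
  · simp
  · have := Real.log_pos (show (1 : ℝ) < 2 by norm_num)
    rw [ne_eq, ENNReal.ofReal_eq_zero, not_le]
    positivity

/-- the law of the sizes in one direction -/
noncomputable def seqLaw : Measure (ℕ → ℕ) := Measure.infinitePi fun _ => sizeLaw

instance : IsProbabilityMeasure seqLaw := by
  unfold seqLaw
  infer_instance

theorem small_prob (κ : ℕ) : sizeLaw {x | x < 2 ^ κ} ≤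
    ENNReal.ofReal (1 - (1 / 2) ^ (κ / 2 + 3)) := by
  have h1 : val (κ / 2 + 2) = 2 ^ 2 ^ (κ / 2 + 1) := rfl
  have hκ : κ ≤ 2 ^ (κ / 2 + 1) := by
    have h2 : κ / 2 < 2 ^ (κ / 2) := Nat.lt_two_pow_self
    rw [pow_succ]
    omega
  have hdisj : Disjoint {x : ℕ | x < 2 ^ κ} {val (κ / 2 + 2)} := by
    rw [Set.disjoint_singleton_right]
    intro h
    have h' : val (κ / 2 + 2) < 2 ^ κ := h
    rw [h1] at h'
    exact absurd (Nat.pow_le_pow_right (by norm_num) hκ) (not_le.2 h')
  have h3 : sizeLaw {x | x < 2 ^ κ} + sizeLaw {val (κ / 2 + 2)} ≤ 1 := by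
    rw [← measure_union hdisj (measurableSet_singleton _)]
    exact prob_le_one
  rw [sizeLaw_atom] at h3
  rw [ENNReal.ofReal_sub _ (by positivity), ENNReal.ofReal_one]
  exact ENNReal.le_sub_of_add_le_right ENNReal.ofReal_ne_top h3

/-- `M` unit boxes from `j` on -/
def UnitRun (j M : ℕ) : Set (ℕ → ℕ) := {Y | ∀ k < M, Y (j + k) = 1}

theorem unitRun_eq (j M : ℕ) :
    UnitRun j M = Set.pi (Finset.Ico j (j + M)) fun _ => ({1} : Set ℕ) := by
  ext Y
  constructor
  · intro h n hn
    have h' : ∀ k < M, Y (j + k) = 1 := h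
    have hn' := Finset.mem_Ico.1 (Finset.mem_coe.1 hn)
    have := h' (n - j) (by omega)
    rw [show j + (n - j) = n by omega] at this
    exact this
  · intro h k hk
    exact h (j + k) (Finset.mem_coe.2 (Finset.mem_Ico.2 ⟨by omega, by omega⟩))

theorem unitRun_prob (j M : ℕ) : seqLaw (UnitRun j M) = sizeLaw {1} ^ M := by
  rw [unitRun_eq, seqLaw, Measure.infinitePi_pi _ (fun _ _ => measurableSet_singleton _),
    Finset.prod_const, Nat.card_Ico]
  congr 1
  omega

theorem bad_prob (j M i κ : ℕ) :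
    seqLaw {Y | (∀ k < M, Y (j + k) = 1) ∧ (∀ k < i, Y (j + M + k) < 2 ^ κ) ∧
      Y (j + M + i) = val (κ + 1)} ≤
    sizeLaw {1} ^ M * ENNReal.ofReal ((1 / 2) ^ (κ + 2) * (1 - (1 / 2) ^ (κ / 2 + 3)) ^ i) := by
  classical
  set t : ℕ → Set ℕ := fun n => if n < j + M then {1} else if n < j + M + i then {x | x < 2 ^ κ}
    else {val (κ + 1)} with ht
  have hsub : {Y : ℕ → ℕ | (∀ k < M, Y (j + k) = 1) ∧ (∀ k < i, Y (j + M + k) < 2 ^ κ) ∧
      Y (j + M + i) = val (κ + 1)} ⊆ Set.pi (Finset.Ico j (j + M + i + 1)) t := by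
    rintro Y ⟨h1, h2, h3⟩ n hn
    have hn' := Finset.mem_Ico.1 (Finset.mem_coe.1 hn)
    rw [ht]
    simp only
    split_ifs with c1 c2
    · have := h1 (n - j) (by omega)
      rw [show j + (n - j) = n by omega] at this
      exact this
    · have := h2 (n - (j + M)) (by omega)
      rw [show j + M + (n - (j + M)) = n by omega] at this
      exact this
    · rw [show n = j + M + i by omega]
      exact h3
  refine (measure_mono hsub).trans ?_
  rw [seqLaw, Measure.infinitePi_pi _ (fun _ _ => MeasurableSet.of_discrete),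
    Finset.prod_Ico_succ_top (by omega), ← Finset.prod_Ico_consecutive _
      (show j ≤ j + M by omega) (show j + M ≤ j + M + i by omega)]
  have e1 : ∏ n ∈ Finset.Ico j (j + M), sizeLaw (t n) = sizeLaw {1} ^ M := by
    rw [Finset.prod_congr rfl (g := fun _ => sizeLaw {1}) (fun n hn => by
      have := Finset.mem_Ico.1 hn
      rw [ht]
      simp only
      rw [if_pos (by omega)]), Finset.prod_const, Nat.card_Ico]
    congr 1
    omega
  have e2 : ∏ n ∈ Finset.Ico (j + M) (j + M + i), sizeLaw (t n) ≤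
      ENNReal.ofReal (1 - (1 / 2) ^ (κ / 2 + 3)) ^ i := by
    rw [Finset.prod_congr rfl (g := fun _ => sizeLaw {x | x < 2 ^ κ}) (fun n hn => by
      have := Finset.mem_Ico.1 hn
      rw [ht]
      simp only
      rw [if_neg (by omega), if_pos (by omega)]), Finset.prod_const, Nat.card_Ico,
      show j + M + i - (j + M) = i by omega]
    exact pow_le_pow_left' (small_prob κ) i
  have e3 : sizeLaw (t (j + M + i)) = ENNReal.ofReal ((1 / 2) ^ (κ + 2)) := by
    rw [ht]
    simp only
    rw [if_neg (by omega), if_neg (by omega), sizeLaw_atom]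
  have hnn : (0 : ℝ) ≤ 1 - (1 / 2) ^ (κ / 2 + 3) := by
    have : (1 / 2 : ℝ) ^ (κ / 2 + 3) ≤ 1 := pow_le_one₀ (by norm_num) (by norm_num)
    linarith
  rw [e1, e3, ENNReal.ofReal_mul (by positivity), ENNReal.ofReal_pow hnn]
  calc sizeLaw {1} ^ M * (∏ n ∈ Finset.Ico (j + M) (j + M + i), sizeLaw (t n)) *
        ENNReal.ofReal ((1 / 2) ^ (κ + 2))
      ≤ sizeLaw {1} ^ M * ENNReal.ofReal (1 - (1 / 2) ^ (κ / 2 + 3)) ^ i *
        ENNReal.ofReal ((1 / 2) ^ (κ + 2)) := by gcongr
    _ = _ := by ring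

theorem half_pow_le (t : ℕ) : (1 / 2 : ℝ) ^ (t - t / 2) ≤ (3 / 4) ^ t := by
  have h1 : (1 / 2 : ℝ) ^ (t - t / 2) ≤ (9 / 16) ^ (t - t / 2) :=
    pow_le_pow_left₀ (by norm_num) (by norm_num) _
  have h2 : (9 / 16 : ℝ) ^ (t - t / 2) = (3 / 4) ^ (2 * (t - t / 2)) := by
    rw [pow_mul]
    norm_num
  have h3 : (3 / 4 : ℝ) ^ (2 * (t - t / 2)) ≤ (3 / 4) ^ t :=
    pow_le_pow_of_le_one (by norm_num) (by norm_num) (by omega)
  linarith

/-- Lower bound on the probability of an obstacle. -/
theorem obst_prob (j M : ℕ) (hM : 1024 ≤ M) :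
    sizeLaw {1} ^ M / 2 ≤ seqLaw {Y | Obst Y j M} := by
  classical
  have hs1 : sizeLaw {1} ^ M ≤ 1 := pow_le_one' prob_le_one M
  have hsub : UnitRun j M ⊆ {Y | Obst Y j M} ∪ ({Y : ℕ → ℕ | ∃ n, Y n ∈ (Set.range val)ᶜ} ∪
      ⋃ t : ℕ, ⋃ i : ℕ, {Y | (∀ k < M, Y (j + k) = 1) ∧
        (∀ k < i, Y (j + M + k) < 2 ^ (10 + t)) ∧ Y (j + M + i) = val (10 + t + 1)}) := by
    intro Y hY
    have hY' : ∀ k < M, Y (j + k) = 1 := hY
    by_cases hO : Obst Y j M
    · exact Or.inl hO
    · right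
      by_cases hr : ∃ n, Y n ∈ (Set.range val)ᶜ
      · exact Or.inl hr
      · right
        push Not at hr
        have hO' : ∃ i, 2 ^ (M + ∑ k ∈ Finset.range i, Y (j + M + k)) < Y (j + M + i) := by
          by_contra hcon
          push Not at hcon
          exact hO ⟨hY', hcon⟩
        obtain ⟨i, hi⟩ := hO'
        obtain ⟨m, hm⟩ : Y (j + M + i) ∈ Set.range val := by
          have := hr (j + M + i)
          rwa [Set.notMem_compl_iff] at this
        cases m with
        | zero =>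
          exfalso
          rw [← hm] at hi
          have h1 : 1 ≤ 2 ^ (M + ∑ k ∈ Finset.range i, Y (j + M + k)) := Nat.one_le_two_pow
          have h2 : val 0 = 1 := rfl
          omega
        | succ κ =>
          have h2 : val (κ + 1) = 2 ^ 2 ^ κ := rfl
          rw [← hm, h2] at hi
          have h3 : M + ∑ k ∈ Finset.range i, Y (j + M + k) < 2 ^ κ :=
            (Nat.pow_lt_pow_iff_right (by norm_num)).1 hi
          have h4 : 10 ≤ κ := by
            by_contra hcon
            have h5 : 2 ^ κ ≤ 2 ^ 10 := Nat.pow_le_pow_right (by norm_num) (by omega)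
            omega
          simp only [Set.mem_iUnion]
          refine ⟨κ - 10, i, hY', fun k hk => ?_, ?_⟩
          · rw [show 10 + (κ - 10) = κ by omega]
            have h5 : Y (j + M + k) ≤ ∑ k ∈ Finset.range i, Y (j + M + k) :=
              Finset.single_le_sum (f := fun k => Y (j + M + k)) (fun _ _ => Nat.zero_le _)
                (Finset.mem_range.2 hk)
            omega
          · rw [show 10 + (κ - 10) = κ by omega]
            exact hm.symm
  have hnull : seqLaw {Y : ℕ → ℕ | ∃ n, Y n ∈ (Set.range val)ᶜ} = 0 := by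
    have : {Y : ℕ → ℕ | ∃ n, Y n ∈ (Set.range val)ᶜ} =
        ⋃ n, Set.pi (({n} : Finset ℕ) : Set ℕ) fun _ => (Set.range val)ᶜ := by
      ext Y
      simp
    rw [this]
    refine measure_iUnion_null fun n => ?_
    rw [seqLaw, Measure.infinitePi_pi _ (fun _ _ => MeasurableSet.of_discrete),
      Finset.prod_singleton, sizeLaw_range]
  have hbad : seqLaw (⋃ t : ℕ, ⋃ i : ℕ, {Y | (∀ k < M, Y (j + k) = 1) ∧
        (∀ k < i, Y (j + M + k) < 2 ^ (10 + t)) ∧ Y (j + M + i) = val (10 + t + 1)}) ≤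
      sizeLaw {1} ^ M / 2 := by
    have h1 : ∀ t : ℕ, seqLaw (⋃ i : ℕ, {Y | (∀ k < M, Y (j + k) = 1) ∧
        (∀ k < i, Y (j + M + k) < 2 ^ (10 + t)) ∧ Y (j + M + i) = val (10 + t + 1)}) ≤
        sizeLaw {1} ^ M * ENNReal.ofReal (1 / 8 * (3 / 4) ^ t) := by
      intro t
      refine (measure_iUnion_le _).trans ((ENNReal.tsum_le_tsum fun i =>
        bad_prob j M i (10 + t)).trans ?_)
      rw [ENNReal.tsum_mul_left]
      refine mul_le_mul_right ?_ _
      set a : ℝ := (1 / 2) ^ ((10 + t) / 2 + 3) with ha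
      have ha0 : 0 < a := by positivity
      have ha1 : a ≤ 1 := pow_le_one₀ (by norm_num) (by norm_num)
      have ha1' : a < 1 := by
        refine lt_of_le_of_ne ha1 ?_
        intro h
        have h2 : a ≤ (1 / 2) ^ 1 := pow_le_pow_of_le_one (by norm_num) (by norm_num) (by omega)
        rw [h] at h2
        norm_num at h2
      rw [← ENNReal.ofReal_tsum_of_nonneg (fun i => by
          have : 0 ≤ 1 - a := by linarith
          positivity)
        ((summable_geometric_of_lt_one (by linarith) (by linarith)).mul_left _), tsum_mul_left,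
        tsum_geometric_of_lt_one (by linarith) (by linarith)]
      apply ENNReal.ofReal_le_ofReal
      rw [show 1 - (1 - a) = a by ring]
      have e1 : (1 / 2 : ℝ) ^ (10 + t + 2) * a⁻¹ = (1 / 2) ^ (4 + (t - t / 2)) := by
        rw [ha, mul_inv_eq_iff_eq_mul₀ (by positivity), ← pow_add]
        congr 1
        omega
      rw [e1, pow_add]
      have e2 := half_pow_le t
      have e3 : (0 : ℝ) ≤ (3 / 4) ^ t := by positivity
      calc (1 / 2 : ℝ) ^ 4 * (1 / 2) ^ (t - t / 2) ≤ (1 / 2) ^ 4 * (3 / 4) ^ t := by gcongr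
        _ ≤ _ := by
          norm_num
    refine (measure_iUnion_le _).trans ((ENNReal.tsum_le_tsum h1).trans ?_)
    rw [ENNReal.tsum_mul_left, ← ENNReal.ofReal_tsum_of_nonneg (fun i => by positivity)
        ((summable_geometric_of_lt_one (by norm_num) (by norm_num)).mul_left _), tsum_mul_left,
        tsum_geometric_of_lt_one (by norm_num) (by norm_num), ENNReal.div_eq_inv_mul, mul_comm]
    refine mul_le_mul_left ?_ _
    rw [show (1 / 8 * (1 - 3 / 4 : ℝ)⁻¹) = 2⁻¹ by norm_num, ENNReal.ofReal_inv_of_pos (by norm_num)]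
    simp
  have h2 : sizeLaw {1} ^ M ≤ seqLaw {Y | Obst Y j M} + sizeLaw {1} ^ M / 2 := by
    rw [← unitRun_prob j M]
    refine (measure_mono hsub).trans ((measure_union_le _ _).trans ?_)
    refine add_le_add le_rfl ((measure_union_le _ _).trans ?_)
    rw [hnull, zero_add, unitRun_prob]
    exact hbad
  have h3 : sizeLaw {1} ^ M / 2 + sizeLaw {1} ^ M / 2 ≤
      seqLaw {Y | Obst Y j M} + sizeLaw {1} ^ M / 2 := by
    rw [ENNReal.add_halves]
    exact h2
  refine (ENNReal.add_le_add_iff_right ?_).1 h3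
  refine (ENNReal.div_lt_top ?_ (by norm_num)).ne
  exact (hs1.trans_lt ENNReal.one_lt_top).ne

end Q292.Stack
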