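import Mathlib
import Pool.Agent.Q292.Stack.Env

/-!
# Obstacles occur almost surely
-/

namespace Q292.Stack

open MeasureTheory ProbabilityTheory Filter Topology
open scoped ENNReal

theorem measurable_obst (j M : ℕ) : MeasurableSet {Y : ℕ → ℕ | Obst Y j M} := by
  have h1 : {Y : ℕ → ℕ | Obst Y j M} = (⋂ k : ℕ, {Y | k < M → Y (j + k) = 1}) ∩
      ⋂ i : ℕ, {Y | Y (j + M + i) ≤ 2 ^ (M + ∑ k ∈ Finset.range i, Y (j + M + k))} := by
    ext Y
    simp only [Obst, Set.mem_inter_iff, Set.mem_iInter, Set.mem_ofPred_eq]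
  rw [h1]
  refine MeasurableSet.inter (MeasurableSet.iInter fun k => ?_) (MeasurableSet.iInter fun i => ?_)
  · by_cases hk : k < M
    · have : {Y : ℕ → ℕ | k < M → Y (j + k) = 1} = (fun Y => Y (j + k)) ⁻¹' {1} := by
        ext Y
        simp [hk]
      rw [this]
      exact measurable_pi_apply _ (measurableSet_singleton _)
    · have : {Y : ℕ → ℕ | k < M → Y (j + k) = 1} = Set.univ := by
        ext Y
        simp [hk]
      rw [this]
      exact MeasurableSet.univ
  · refine measurableSet_le (measurable_pi_apply _) ?_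
    have h2 : Measurable fun Y : ℕ → ℕ => M + ∑ k ∈ Finset.range i, Y (j + M + k) := by
      refine measurable_const.add ?_
      exact Finset.measurable_fun_sum _ fun k _ => measurable_pi_apply _
    exact (measurable_of_countable fun n : ℕ => 2 ^ n).comp h2

/-- infinitely many obstacles -/
def Tl (M : ℕ) : Set (ℕ → ℕ) := {Y | ∀ m, ∃ j ≥ m, Obst Y j M}

theorem Tl_eq (M : ℕ) : Tl M = ⋂ m : ℕ, ⋃ j : ℕ, {Y | Obst Y (m + j) M} := by
  ext Y
  simp only [Tl, Set.mem_ofPred_eq, Set.mem_iInter, Set.mem_iUnion]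
  refine forall_congr' fun m => ⟨?_, ?_⟩
  · rintro ⟨j, hj, h⟩
    exact ⟨j - m, by rwa [show m + (j - m) = j by omega]⟩
  · rintro ⟨j, h⟩
    exact ⟨m + j, by omega, h⟩

theorem Tl_meas (M : ℕ) : MeasurableSet (Tl M) := by
  rw [Tl_eq]
  exact MeasurableSet.iInter fun m => MeasurableSet.iUnion fun j => measurable_obst _ _

theorem Tl_prob {M : ℕ} (hM : 1024 ≤ M) : sizeLaw {1} ^ M / 2 ≤ seqLaw (Tl M) := by
  rw [Tl_eq, Antitone.measure_iInter]
  · refine le_iInf fun m => ?_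
    refine (obst_prob m M hM).trans (measure_mono ?_)
    intro Y hY
    rw [Set.mem_iUnion]
    exact ⟨0, hY⟩
  · intro m m' h Y hY
    simp only [Set.mem_iUnion, Set.mem_ofPred_eq] at hY ⊢
    obtain ⟨j, hj⟩ := hY
    exact ⟨m' - m + j, by rwa [show m + (m' - m + j) = m' + j by omega]⟩
  · exact fun m => (MeasurableSet.iUnion fun j => measurable_obst _ _).nullMeasurableSet
  · exact ⟨0, measure_ne_top _ _⟩

theorem obst_shift (Y : ℕ → ℕ) (n j M : ℕ) : Obst (fun i => Y (n + i)) j M ↔ Obst Y (n + j) M := by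
  simp only [Obst, add_assoc]

theorem Tl_shift (M n : ℕ) : (fun (Y : ℕ → ℕ) i => Y (n + i)) ⁻¹' Tl M = Tl M := by
  ext Y
  rw [Set.mem_preimage]
  constructor
  · intro h m
    obtain ⟨j, hj, h1⟩ := h m
    exact ⟨n + j, by omega, (obst_shift Y n j M).1 h1⟩
  · intro h m
    obtain ⟨j, hj, h1⟩ := h (n + m)
    refine ⟨j - n, by omega, ?_⟩
    rw [obst_shift, show n + (j - n) = j by omega]
    exact h1

theorem Tl_one {M : ℕ} (hM : 1024 ≤ M) : seqLaw (Tl M) = 1 := by
  have hind : iIndep (fun i : ℕ => MeasurableSpace.comap (fun Y : ℕ → ℕ => Y i) inferInstance)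
      seqLaw := by
    unfold seqLaw
    exact (iIndepFun_infinitePi (P := fun _ : ℕ => sizeLaw) (X := fun _ ω => ω)
      (fun _ => measurable_id)).iIndep
  have htail : MeasurableSet[limsup (fun i : ℕ => MeasurableSpace.comap
      (fun Y : ℕ → ℕ => Y i) inferInstance) atTop] (Tl M) := by
    rw [limsup_eq_iInf_iSup_of_nat, MeasurableSpace.measurableSet_iInf]
    intro n
    rw [← Tl_shift M n]
    have hr : @Measurable _ _ (⨆ i ≥ n, MeasurableSpace.comap (fun Y : ℕ → ℕ => Y i) inferInstance)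
        _ (fun (Y : ℕ → ℕ) i => Y (n + i)) := by
      refine @measurable_pi_lambda _ _ _ (⨆ i ≥ n, MeasurableSpace.comap (fun Y : ℕ → ℕ => Y i)
        inferInstance) _ _ fun i => ?_
      rw [measurable_iff_comap_le]
      exact le_iSup₂_of_le (n + i) (by omega) le_rfl
    exact hr (Tl_meas M)
  rcases measure_zero_or_one_of_measurableSet_limsup_atTop
    (fun i => (measurable_pi_apply i).comap_le) hind htail with h | h
  · exfalso
    have h1 := Tl_prob hM
    rw [h] at h1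
    have h2 : sizeLaw {1} ≠ 0 := by
      have h3 : ({1} : Set ℕ) = {val 0} := rfl
      rw [h3, sizeLaw_atom]
      simp
    have h4 : sizeLaw {1} ^ M / 2 ≠ 0 := by
      rw [ne_eq, ENNReal.div_eq_zero_iff, not_or]
      exact ⟨pow_ne_zero _ h2, by norm_num⟩
    exact h4 (le_antisymm h1 zero_le)
  · exact h

theorem ae_seq : ∀ᵐ Y ∂seqLaw, ∀ M ≥ 1024, ∃ j ≥ 1, Obst Y j M := by
  rw [ae_all_iff]
  intro M
  by_cases hM : 1024 ≤ M
  · have h1 : ∀ᵐ Y ∂seqLaw, Y ∈ Tl M := (mem_ae_iff_prob_eq_one (Tl_meas M)).2 (Tl_one hM)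
    filter_upwards [h1] with Y hY _
    exact hY 1
  · exact Eventually.of_forall fun Y h => absurd h hM

/-- the law of the environment -/
noncomputable def envLaw : Measure (ℤ → ℕ) := Measure.infinitePi fun _ => sizeLaw

theorem ae_env : ∀ᵐ X ∂envLaw, (∀ n, 1 ≤ X n) ∧
    ∀ σ : ℤ, (σ = 1 ∨ σ = -1) → ∀ M ≥ 1024, ∃ j ≥ 1, Obst (sd X σ) j M := by
  have h1 : ∀ᵐ X ∂envLaw, ∀ n, 1 ≤ X n := by
    rw [ae_all_iff]
    intro n
    have h2 : {X : ℤ → ℕ | ¬ 1 ≤ X n} = Set.pi (({n} : Finset ℤ) : Set ℤ) fun _ => ({0} : Set ℕ) := by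
      ext X
      simp
    rw [ae_iff, h2, envLaw, Measure.infinitePi_pi _ (fun _ _ => MeasurableSet.of_discrete),
      Finset.prod_singleton, sizeLaw_zero]
  have h3 : ∀ σ : ℤ, (σ = 1 ∨ σ = -1) →
      ∀ᵐ X ∂envLaw, ∀ M ≥ 1024, ∃ j ≥ 1, Obst (sd X σ) j M := by
    intro σ hσ
    have hinj : Function.Injective fun i : ℕ => σ * (i : ℤ) := by
      intro i k h
      simp only at h
      rcases hσ with rfl | rfl <;> omega
    have hmap := Measure.map_infinitePi_infinitePi_of_inj (P := fun _ : ℤ => sizeLaw) hinj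
    have h4 : envLaw.map (fun X i => X (σ * ((i : ℕ) : ℤ))) = seqLaw := hmap
    have h5 := ae_seq
    rw [← h4] at h5
    exact ae_of_ae_map (measurable_pi_lambda _ fun i => measurable_pi_apply _).aemeasurable h5
  filter_upwards [h1, h3 1 (Or.inl rfl), h3 (-1) (Or.inr rfl)] with X e1 e2 e3
  refine ⟨e1, ?_⟩
  rintro σ (rfl | rfl)
  · exact e2
  · exact e3

end Q292.Stack
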